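import Mathlib

/-! Linear hypergraphs without triangles. -/

set_option autoImplicit false
set_option linter.unusedSectionVars false

open Finset

namespace Pool.Agent.Lib.MP_66d22e_co

variable {V : Type} [DecidableEq V] {W : Finset V} {F : Finset (Finset V)}

/-- Blocks of size at least three, two points in at most one block, each point in two blocks. -/
structure Lin (W : Finset V) (F : Finset (Finset V)) : Prop where
  sub : ∀ B ∈ F, B ⊆ W
  big : ∀ B ∈ F, 3 ≤ #B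
  lin : ∀ B ∈ F, ∀ B' ∈ F, ∀ a ∈ B, ∀ b ∈ B, a ∈ B' → b ∈ B' → a ≠ b → B = B'
  two : ∀ B ∈ F, ∀ x ∈ B, ∃ B' ∈ F, B' ≠ B ∧ x ∈ B'
  all : ∀ x ∈ W, ∃ B ∈ F, x ∈ B
  sum : ∑ B ∈ F, #B + 2 = #W + 2 * #F

theorem Lin.dbl (L : Lin W F) : ∑ B ∈ F, #B = ∑ x ∈ W, #{B ∈ F | x ∈ B} := by
  simp only [card_filter]
  rw [sum_comm]
  refine sum_congr rfl fun B hB => ?_
  rw [← card_filter, filter_mem_eq_inter, inter_eq_right.2 (L.sub B hB)]

theorem Lin.le (L : Lin W F) : #W + 2 ≤ 2 * #F := by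
  have h1 := L.sum
  have : #W • 2 ≤ ∑ x ∈ W, #{B ∈ F | x ∈ B} := card_nsmul_le_sum _ _ _ fun x hx => by
    obtain ⟨B, h1, h2⟩ := L.all x hx
    obtain ⟨B', h3, h4, h5⟩ := L.two B h1 x h2
    exact one_lt_card.2 ⟨B', mem_filter.2 ⟨h3, h5⟩, B, mem_filter.2 ⟨h1, h2⟩, h4⟩
  rw [L.dbl] at h1
  rw [smul_eq_mul] at this
  omega

theorem Lin.other (L : Lin W F) {B : Finset V} (hB : B ∈ F) : ∃ g : V → Finset V,
    ∀ x ∈ B, g x ∈ F ∧ g x ≠ B ∧ x ∈ g x ∧ ∀ y ∈ B, y ∈ g x → y = x := by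
  choose! g h1 h2 h3 using L.two B hB
  refine ⟨g, fun x hx => ⟨h1 x hx, h2 x hx, h3 x hx, fun y hy k => ?_⟩⟩
  by_contra e
  exact h2 x hx (L.lin B hB _ (h1 x hx) y hy x hx k (h3 x hx) e).symm

theorem Lin.size (L : Lin W F) {B : Finset V} (hB : B ∈ F) : 2 * #B ≤ #W := by
  obtain ⟨g, hg⟩ := L.other hB
  have h1 : #B ≤ #(F.erase B) := card_le_card_of_injOn g
    (fun x hx => mem_erase.2 ⟨(hg x hx).2.1, (hg x hx).1⟩)
    fun x hx y hy e => (hg y hy).2.2.2 x hx (e ▸ (hg x hx).2.2.1)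
  have h2 : #(F.erase B) • 3 ≤ ∑ B ∈ F.erase B, #B :=
    card_nsmul_le_sum _ _ _ fun x hx => L.big x (mem_of_mem_erase hx)
  have h3 := L.sum
  rw [← add_sum_erase _ _ hB, ← card_erase_add_one hB] at h3
  rw [smul_eq_mul] at h2
  omega

/-- Three points that lie pairwise in a block lie in one block. -/
def NoTri (F : Finset (Finset V)) : Prop :=
  ∀ B ∈ F, ∀ B₁ ∈ F, ∀ B₂ ∈ F, ∀ a ∈ B, ∀ b ∈ B, ∀ c ∈ B₁, a ≠ b → a ∈ B₁ → b ∈ B₂ → c ∈ B₂ → c ∈ B

theorem Lin.three (L : Lin W F) (N : NoTri F) {B : Finset V} (hB : B ∈ F) : 3 * #B ≤ #W := by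
  obtain ⟨g, hg⟩ := L.other hB
  have h1 : #(B.biUnion g) = ∑ x ∈ B, #(g x) := card_biUnion fun x hx y hy e =>
    disjoint_left.2 fun z z1 z2 => by
      have hz := N B hB _ (hg x hx).1 _ (hg y hy).1 x hx y hy z z1 e (hg x hx).2.2.1
        (hg y hy).2.2.1 z2
      exact e (((hg x hx).2.2.2 z hz z1).symm.trans ((hg y hy).2.2.2 z hz z2))
  have h2 : #B • 3 ≤ ∑ x ∈ B, #(g x) := card_nsmul_le_sum _ _ _ fun x hx => L.big _ (hg x hx).1
  have h3 : #(B.biUnion g) ≤ #W :=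
    card_le_card (biUnion_subset.2 fun x hx => L.sub _ (hg x hx).1)
  rw [smul_eq_mul] at h2
  omega

theorem Lin.twelve (L : Lin W F) (N : NoTri F) (ne : W.Nonempty) : 12 ≤ #W := by
  by_contra h
  have c3 : ∀ B ∈ F, #B = 3 := fun B hB => by
    have := L.three N hB
    have := L.big B hB
    omega
  have h1 := L.sum
  have h9 : 9 ≤ #W := by
    obtain ⟨x, hx⟩ := ne
    obtain ⟨B, hB, -⟩ := L.all x hx
    have := L.three N hB
    have := c3 B hB
    omega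
  have h2 := L.dbl
  rw [sum_congr rfl c3, sum_const, smul_eq_mul] at h1 h2
  obtain ⟨p, hp, h3⟩ : ∃ p ∈ W, 3 ≤ #{B ∈ F | p ∈ B} := by
    by_contra k
    have : ∑ x ∈ W, #{B ∈ F | x ∈ B} ≤ #W • 2 := sum_le_card_nsmul _ _ _ fun x hx => by
      by_contra q
      exact k ⟨x, hx, by omega⟩
    rw [smul_eq_mul] at this
    omega
  set P := {B ∈ F | p ∈ B} with hP
  have mP : ∀ B, B ∈ P ↔ B ∈ F ∧ p ∈ B := fun B => mem_filter
  set M := P.biUnion fun B => B.erase p with hM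
  have mM : ∀ q, q ∈ M ↔ q ≠ p ∧ ∃ B ∈ F, p ∈ B ∧ q ∈ B := fun q => by
    simp only [hM, mem_biUnion, mP, mem_erase]
    exact ⟨fun ⟨B, a, b, c⟩ => ⟨b, B, a.1, a.2, c⟩, fun ⟨b, B, a, a', c⟩ => ⟨B, ⟨a, a'⟩, b, c⟩⟩
  have cM : 6 ≤ #M := by
    rw [hM, card_biUnion fun B hB B' hB' e => disjoint_left.2 fun z z1 z2 => e
      (L.lin B ((mP B).1 hB).1 B' ((mP B').1 hB').1 z (mem_of_mem_erase z1) p ((mP B).1 hB).2
        (mem_of_mem_erase z2) ((mP B').1 hB').2 (ne_of_mem_erase z1)),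
      sum_congr rfl fun B hB => (card_erase_of_mem ((mP B).1 hB).2).trans
        (congrArg (· - 1) (c3 B ((mP B).1 hB).1)), sum_const, smul_eq_mul]
    omega
  have ex : ∀ q ∈ M, ∃ B ∈ F, q ∈ B ∧ p ∉ B ∧ ∀ y ∈ M, y ∈ B → y = q := fun q hq => by
    obtain ⟨e, B, hB, k1, k2⟩ := (mM q).1 hq
    obtain ⟨g, hg⟩ := L.other hB
    obtain ⟨g1, -, g3, g4⟩ := hg q k2
    refine ⟨g q, g1, g3, fun k => e (g4 p k1 k).symm, fun y hy k => ?_⟩
    obtain ⟨-, B', hB', k3, k4⟩ := (mM y).1 hy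
    exact g4 y (N B hB B' hB' _ g1 p k1 q k2 y k4 e.symm k3 g3 k) k
  choose! g g1 g2 g3 g4 using ex
  set R := W \ insert p M with hR
  have cR : #R ≤ 4 := by
    have : insert p M ⊆ W := insert_subset hp fun q hq => by
      obtain ⟨-, B, hB, -, k⟩ := (mM q).1 hq
      exact L.sub B hB k
    rw [hR, card_sdiff_of_subset this, card_insert_of_notMem fun k => ((mM p).1 k).1 rfl]
    omega
  have mt2 : ∀ q ∈ M, (g q).erase q ∈ powersetCard 2 R := fun q hq => mem_powersetCard.2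
    ⟨fun z hz => mem_sdiff.2 ⟨L.sub _ (g1 q hq) (mem_of_mem_erase hz), fun k => by
      rcases mem_insert.1 k with rfl | k
      · exact g3 q hq (mem_of_mem_erase hz)
      · exact ne_of_mem_erase hz (g4 q hq z k (mem_of_mem_erase hz))⟩,
      by rw [card_erase_of_mem (g2 q hq), c3 _ (g1 q hq)]⟩
  have inj : Set.InjOn (fun q => (g q).erase q) M := fun q hq r hr e => by
    obtain ⟨a, ha, b, hb, ab⟩ := one_lt_card.1 (mem_powersetCard.1 (mt2 q hq)).2.ge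
    have e' : (g q).erase q = (g r).erase r := e
    have := L.lin _ (g1 q hq) _ (g1 r hr) a (mem_of_mem_erase ha) b (mem_of_mem_erase hb)
      (mem_of_mem_erase (e' ▸ ha)) (mem_of_mem_erase (e' ▸ hb)) ab
    exact g4 r hr q hq (this ▸ g2 q hq)
  have c6 : #(powersetCard 2 R) ≤ 6 := by
    rw [card_powersetCard]
    exact Nat.choose_le_choose 2 cR
  have c3R : 2 < #R := by
    by_contra k
    have := card_le_card_of_injOn _ mt2 inj
    have := Nat.choose_le_choose 2 (not_lt.1 k)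
    rw [card_powersetCard] at *
    simp at this
    omega
  have sur : ∀ a ∈ R, ∀ b ∈ R, a ≠ b → ∃ q ∈ M, (g q).erase q = {a, b} := fun a ha b hb ab => by
    have : M.image (fun q => (g q).erase q) = powersetCard 2 R :=
      eq_of_subset_of_card_le (image_subset_iff.2 mt2) (by rw [card_image_of_injOn inj]; omega)
    exact mem_image.1 (this ▸ mem_powersetCard.2
      ⟨insert_subset ha (singleton_subset_iff.2 hb), card_pair ab⟩)
  obtain ⟨a, ha, b, hb, c, hc, ab, ac, bc⟩ := two_lt_card.1 c3R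
  obtain ⟨q, hq, e1⟩ := sur a ha b hb ab
  obtain ⟨r, hr, e2⟩ := sur a ha c hc ac
  obtain ⟨s, hs, e3⟩ := sur b hb c hc bc
  have m : ∀ {q x}, x ∈ (g q).erase q → x ∈ g q := mem_of_mem_erase
  have := N _ (g1 q hq) _ (g1 r hr) _ (g1 s hs) a (m (by simp [e1])) b (m (by simp [e1])) c
    (m (by simp [e2])) ab (m (by simp [e2])) (m (by simp [e3])) (m (by simp [e3]))
  have k : c ∈ (g q).erase q := mem_erase.2
    ⟨fun e => (mem_sdiff.1 hc).2 (mem_insert_of_mem (e ▸ hq)), this⟩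
  simp [e1, ac.symm, bc.symm] at k

end Pool.Agent.Lib.MP_66d22e_co
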