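import Pool.Agent.Lib.MP_66d22e_co.Int
import Pool.Agent.Lib.MP_66d22e_co.Hyp

/-! Systems of blocks whose interior vertices partition those of a set of leaves. -/

set_option autoImplicit false
set_option linter.unusedSectionVars false

open Finset

namespace Pool.Agent.Lib.MP_66d22e_co

variable {V : Type} [DecidableEq V] {X I : Finset V} {d : V → V → Fin 3} {C : V → V → Prop}
  {P : Finset V → Prop} {W : Finset V} {F : Finset (Finset V)}

/-- The blocks in `F` have the property `P` and their interior vertices partition those of `W`. -/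
structure Sys (I : Finset V) (d : V → V → Fin 3) (P : Finset V → Prop) (W : Finset V)
    (F : Finset (Finset V)) : Prop where
  sub : ∀ B ∈ F, B ⊆ W
  good : ∀ B ∈ F, P B
  cov : ∀ v ∈ int I d W, ∃ B ∈ F, v ∈ int I d B
  dis : ∀ B ∈ F, ∀ B' ∈ F, ∀ v ∈ int I d B, v ∈ int I d B' → B = B'

theorem Sys.repl (s : Sys I d P W F) {W' : Finset V} {R N : Finset (Finset V)} (hR : R ⊆ F)
    (hW : W' ⊆ W) (h0 : ∀ B ∈ F, B ∉ R → B ⊆ W') (h1 : ∀ B ∈ N, B ⊆ W' ∧ P B)
    (h2 : ∀ B ∈ N, ∀ v ∈ int I d B, ∃ B' ∈ R, v ∈ int I d B')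
    (h3 : ∀ B ∈ R, ∀ v ∈ int I d B, v ∈ int I d W' → ∃ B' ∈ N, v ∈ int I d B')
    (h4 : ∀ B ∈ N, ∀ B' ∈ N, ∀ v ∈ int I d B, v ∈ int I d B' → B = B') :
    Sys I d P W' (N ∪ F \ R) := by
  have key : ∀ B ∈ N, ∀ B' ∈ F \ R, ∀ v ∈ int I d B, v ∉ int I d B' := fun B hB B' hB' v k k' => by
    obtain ⟨B'', q, q'⟩ := h2 B hB v k
    exact (mem_sdiff.1 hB').2 (s.dis _ (hR q) _ (mem_sdiff.1 hB').1 v q' k' ▸ q)
  refine ⟨fun B hB => ?_, fun B hB => ?_, fun v hv => ?_, fun B hB B' hB' v k k' => ?_⟩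
  · exact (mem_union.1 hB).elim (fun k => (h1 B k).1)
      fun k => h0 B (mem_sdiff.1 k).1 (mem_sdiff.1 k).2
  · exact (mem_union.1 hB).elim (fun k => (h1 B k).2) fun k => s.good B (mem_sdiff.1 k).1
  · obtain ⟨B, hB, k⟩ := s.cov v (int_mono hW hv)
    by_cases e : B ∈ R
    · obtain ⟨B', q, q'⟩ := h3 B e v k hv
      exact ⟨B', mem_union_left _ q, q'⟩
    · exact ⟨B, mem_union_right _ (mem_sdiff.2 ⟨hB, e⟩), k⟩
  · rcases mem_union.1 hB with hB | hB <;> rcases mem_union.1 hB' with hB' | hB'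
    exacts [h4 B hB B' hB' v k k', (key B hB B' hB' v k k').elim, (key B' hB' B hB v k' k).elim,
      s.dis B (mem_sdiff.1 hB).1 B' (mem_sdiff.1 hB').1 v k k']

theorem card_repl {R N : Finset (Finset V)} (hR : R ⊆ F) : #(N ∪ F \ R) + #R ≤ #N + #F := by
  have := card_union_le N (F \ R)
  have := card_sdiff_add_card_eq_card hR
  omega

theorem Sys.filt (s : Sys I d P W F) : Sys I d P W {B ∈ F | 3 ≤ #B} :=
  ⟨fun B hB => s.sub B (mem_filter.1 hB).1, fun B hB => s.good B (mem_filter.1 hB).1,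
    fun v hv => (s.cov v hv).imp fun _ k => ⟨mem_filter.2 ⟨k.1, card_of_mem k.2⟩, k.2⟩,
    fun B hB B' hB' => s.dis B (mem_filter.1 hB).1 B' (mem_filter.1 hB').1⟩

theorem Sys.sum (S : St X I d) (s : Sys I d P W F) (hW : W ⊆ X) (h2 : 2 ≤ #W)
    (big : ∀ B ∈ F, 3 ≤ #B) : ∑ B ∈ F, #B + 2 = #W + 2 * #F := by
  have e : int I d W = F.biUnion (int I d) := Subset.antisymm
    (fun v hv => mem_biUnion.2 (s.cov v hv)) (biUnion_subset.2 fun B hB => int_mono (s.sub B hB))
  have h := S.card hW h2
  rw [e, card_biUnion fun B hB B' hB' ne => disjoint_left.2 fun v k k' =>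
    ne (s.dis B hB B' hB' v k k')] at h
  rw [← sum_congr rfl fun B hB => S.card ((s.sub B hB).trans hW) (by have := big B hB; omega),
    sum_add_distrib, sum_const, smul_eq_mul]
  omega

/-- Two blocks with two common points have exactly two, and are replaced by their union. -/
theorem Sys.two (S : St X I d) (s : Sys I d P W F) (hW : W ⊆ X) {Y Z : Finset V} (hY : Y ∈ F)
    (hZ : Z ∈ F) (ne : Y ≠ Z) (h2 : 2 ≤ #(Y ∩ Z)) : #(Y ∩ Z) = 2 ∧
      int I d (Y ∪ Z) = int I d Y ∪ int I d Z ∧
      (P (Y ∪ Z) → ∃ F', Sys I d P W F' ∧ #F' < #F) := by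
  have y := (s.sub Y hY).trans hW
  have z := (s.sub Z hZ).trans hW
  have dj : Disjoint (int I d Y) (int I d Z) :=
    disjoint_left.2 fun v k k' => ne (s.dis Y hY Z hZ v k k')
  have e0 : int I d (Y ∩ Z) = ∅ := eq_empty_of_forall_notMem fun v k =>
    disjoint_left.1 dj (int_mono inter_subset_left k) (int_mono inter_subset_right k)
  have h1 := S.card (inter_subset_left.trans y) h2
  rw [e0, card_empty] at h1
  have e : int I d (Y ∪ Z) = int I d Y ∪ int I d Z := by
    refine (eq_of_subset_of_card_le (union_subset (int_mono subset_union_left)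
      (int_mono subset_union_right)) ?_).symm
    have := card_union_of_disjoint dj
    have := card_union_add_card_inter Y Z
    have := S.card y (h2.trans (card_le_card inter_subset_left))
    have := S.card z (h2.trans (card_le_card inter_subset_right))
    have := S.card (union_subset y z)
      (h2.trans (card_le_card (inter_subset_left.trans subset_union_left)))
    omega
  have hR : ({Y, Z} : Finset (Finset V)) ⊆ F := insert_subset hY (singleton_subset_iff.2 hZ)
  refine ⟨h1.symm, e, fun p => ⟨_, s.repl (N := {Y ∪ Z}) hR Subset.rfl (fun B hB _ => s.sub B hB)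
    (by simpa using ⟨union_subset (s.sub Y hY) (s.sub Z hZ), p⟩) (by simp [e])
    (by simp +contextual [e]) (by simp), ?_⟩⟩
  have := card_repl (N := {Y ∪ Z}) hR
  rw [card_pair ne, card_singleton] at this
  omega

theorem St.shrink (S : St X I d) {B : Finset V} (hB : B ⊆ X) (h5 : #B ≤ 5) {u : V}
    (hu : u ∈ int I d B) : ∃ p, int I d (B.erase p) = (int I d B).erase u := by
  obtain ⟨i, hi⟩ : ∃ i, #{y ∈ B | d u y = i} ≤ 1 := by
    by_contra k
    push Not at k
    have := card_eq_sum_card_fiberwise (f := d u) (s := B) (t := univ) fun _ _ => mem_univ _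
    rw [Fin.sum_univ_three] at this
    have := k 0; have := k 1; have := k 2
    omega
  obtain ⟨p, hp, e⟩ := (mem_int.1 hu).2 i
  have h3 := card_of_mem hu
  refine ⟨p, eq_of_subset_of_card_le (subset_erase.2 ⟨int_mono (erase_subset _ _), fun k => ?_⟩) ?_⟩
  · obtain ⟨y, hy, e'⟩ := (mem_int.1 k).2 i
    exact ne_of_mem_erase hy (card_le_one.1 hi y (mem_filter.2 ⟨mem_of_mem_erase hy, e'⟩) p
      (mem_filter.2 ⟨hp, e⟩))
  · have := S.card hB (by omega)
    have := card_erase_add_one hp
    have := S.card ((erase_subset p B).trans hB) (by omega)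
    have := card_erase_add_one hu
    omega

/-- A triangle across two blocks whose vertex belongs to a third, small block. -/
theorem Sys.tri (S : St X I d) (K : Cl X I d C) (s : Sys I d (Clq C) W F) (hW : W ⊆ X)
    (L : Lin W F) (h11 : #W ≤ 11) {Y Z D : Finset V} (hY : Y ∈ F) (hZ : Z ∈ F) (hD : D ∈ F)
    (YZ : Y ≠ Z) (YD : Y ≠ D) (ZD : Z ≠ D) {t y z u : V} (tY : t ∈ Y) (tZ : t ∈ Z) (hy : y ∈ Y)
    (hz : z ∈ Z) (c : C y z) (k : Rb d u t y z) (hu : u ∈ int I d D) :
    ∃ F', Sys I d (Clq C) W F' ∧ #F' < #F := by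
  have sy := (s.sub Y hY).trans hW
  have sz := (s.sub Z hZ).trans hW
  have uI := (mem_int.1 hu).1
  have uY : u ∉ int I d Y := fun q => YD (s.dis Y hY D hD u q hu)
  have uZ : u ∉ int I d Z := fun q => ZD (s.dis Z hZ D hD u q hu)
  have e : int I d (Y ∪ Z) = insert u (int I d Y ∪ int I d Z) := by
    refine (eq_of_subset_of_card_le (insert_subset (k.mem uI (by simp [tY]) (by simp [hy])
      (by simp [hz])) (union_subset (int_mono subset_union_left)
      (int_mono subset_union_right))) ?_).symm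
    rw [card_insert_of_notMem (by simp [uY, uZ]), card_union_of_disjoint
      (disjoint_left.2 fun v q q' => YZ (s.dis Y hY Z hZ v q q'))]
    have := card_union_add_card_inter Y Z
    have : 0 < #(Y ∩ Z) := card_pos.2 ⟨t, mem_inter.2 ⟨tY, tZ⟩⟩
    have := L.big Y hY
    have := L.big Z hZ
    have := S.card sy (by omega)
    have := S.card sz (by omega)
    have := card_le_card (subset_union_left (s₁ := Y) (s₂ := Z))
    have := S.card (union_subset sy sz) (by omega)
    omega
  have e2 : insert z Y ∪ Z = Y ∪ Z := by rw [insert_union, insert_eq_of_mem (by simp [hz])]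
  have cl : Clq C (Y ∪ Z) := by
    rw [← e2]
    refine S.merge K (insert_subset (sz hz) sy) sz (S.ext K sy (s.good Y hY) tY hy (sz hz) uI k uY
      (s.good Z hZ t tZ z hz k.ne.2.1) c) (s.good Z hZ)
      (one_lt_card.2 ⟨t, by simp [tY, tZ], z, by simp [hz], k.ne.2.1⟩) ?_
    rw [e2, e]
    exact insert_subset (mem_union_left _ (k.mem uI (by simp [tY]) (by simp [hy]) (by simp)))
      (union_subset_union_left (int_mono (subset_insert _ _)))
  obtain ⟨p, hp⟩ := S.shrink ((s.sub D hD).trans hW) (by have := L.size hD; omega) hu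
  have hR : ({Y, Z, D} : Finset (Finset V)) ⊆ F :=
    insert_subset hY (insert_subset hZ (singleton_subset_iff.2 hD))
  refine ⟨_, s.repl (N := {Y ∪ Z, D.erase p}) hR Subset.rfl (fun B hB _ => s.sub B hB)
    ?_ ?_ ?_ ?_, ?_⟩
  · simp only [mem_insert, mem_singleton, forall_eq_or_imp, forall_eq]
    exact ⟨⟨union_subset (s.sub Y hY) (s.sub Z hZ), cl⟩, (erase_subset _ _).trans (s.sub D hD),
      (s.good D hD).mono (erase_subset _ _)⟩
  · simp only [mem_insert, mem_singleton, forall_eq_or_imp, forall_eq, exists_eq_or_imp,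
      exists_eq_left, e, hp, mem_union, mem_erase]
    grind
  · simp only [mem_insert, mem_singleton, forall_eq_or_imp, forall_eq, exists_eq_or_imp,
      exists_eq_left, e, hp, mem_union, mem_erase]
    grind
  · have : ∀ v ∈ int I d (Y ∪ Z), v ∉ int I d (D.erase p) := fun v q q' => by
      rw [hp, mem_erase] at q'
      rw [e, mem_insert, mem_union] at q
      rcases q with q | q | q
      exacts [q'.1 q, YD (s.dis Y hY D hD v q q'.2), ZD (s.dis Z hZ D hD v q q'.2)]
    simp only [mem_insert, mem_singleton, forall_eq_or_imp, forall_eq]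
    exact ⟨⟨fun _ _ _ => trivial, fun v q q' => (this v q q').elim⟩,
      fun v q q' => (this v q' q).elim, fun _ _ _ => trivial⟩
  · have := card_repl (N := {Y ∪ Z, D.erase p}) hR
    have := card_le_two (a := Y ∪ Z) (b := D.erase p)
    have : #({Y, Z, D} : Finset (Finset V)) = 3 := card_eq_three.2 ⟨_, _, _, YZ, YD, ZD, rfl⟩
    omega

theorem core (S : St X I d) (K : Cl X I d C) (n : ℕ) : ∀ W F, #W + #F ≤ n → W ⊆ X → 3 ≤ #W →
    Sys I d (Clq C) W F → #F ≤ 6 ∨ #W ≤ 11 → Clq C W := by
  induction n with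
  | zero => intro W F h _ h3; omega
  | succ n ih =>
    intro W F0 hn hW h3 s0 small
    have s := s0.filt
    have le := card_filter_le F0 (fun B => 3 ≤ #B)
    have big : ∀ B ∈ ({B ∈ F0 | 3 ≤ #B} : Finset (Finset V)), 3 ≤ #B :=
      fun B hB => (mem_filter.1 hB).2
    generalize ({B ∈ F0 | 3 ≤ #B} : Finset (Finset V)) = F at s le big
    have red : (∃ F', Sys I d (Clq C) W F' ∧ #F' < #F) → Clq C W := fun ⟨F', s', lt⟩ =>
      ih W F' (by omega) hW h3 s' (by omega)
    by_cases h1 : ∃ Y ∈ F, ∃ Z ∈ F, Y ≠ Z ∧ 2 ≤ #(Y ∩ Z)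
    · obtain ⟨Y, hY, Z, hZ, ne, h2⟩ := h1
      obtain ⟨-, e, k⟩ := s.two S hW hY hZ ne h2
      exact red (k (S.merge K ((s.sub Y hY).trans hW) ((s.sub Z hZ).trans hW) (s.good Y hY)
        (s.good Z hZ) h2 e.le))
    have own : ∀ x ∈ W, ∃ u, u ∉ int I d (W.erase x) ∧ int I d W = insert u (int I d (W.erase x)) ∧
        ∃ B ∈ F, x ∈ B ∧ u ∈ int I d B := fun x hx => by
      obtain ⟨u, -, k1, k2, -⟩ := S.new ((erase_subset x W).trans hW)
        (by have := card_erase_add_one hx; omega) (hW hx) (notMem_erase _ _)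
      rw [insert_erase hx] at k2
      obtain ⟨B, hB, k⟩ := s.cov u (k2 ▸ mem_insert_self _ _)
      refine ⟨u, k1, k2, B, hB, ?_, k⟩
      by_contra q
      exact k1 (int_mono (subset_erase.2 ⟨s.sub B hB, q⟩) k)
    by_cases h2 : ∃ B ∈ F, ∃ x ∈ B, ∀ B' ∈ F, x ∈ B' → B' = B
    · obtain ⟨B, hB, x, hx, only⟩ := h2
      have xW := s.sub B hB hx
      have b3 := big B hB
      by_cases h4 : #W = 3
      · exact eq_of_subset_of_card_le (s.sub B hB) (by omega) ▸ s.good B hB
      obtain ⟨u, k1, k2, B', hB', k3, k4⟩ := own x xW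
      obtain rfl := only B' hB' k3
      have cW := card_erase_add_one xW
      have cB := card_erase_add_one hx
      have sB : B'.erase x ⊆ W.erase x := erase_subset_erase _ (s.sub B' hB)
      obtain ⟨u', -, -, q2, -⟩ := S.new ((sB.trans (erase_subset _ _)).trans hW) (by omega)
        (hW xW) (notMem_erase _ _)
      rw [insert_erase hx] at q2
      have uu : u = u' := (mem_insert.1 (q2 ▸ k4)).resolve_right fun q => k1 (int_mono sB q)
      have hR : ({B'} : Finset (Finset V)) ⊆ F := singleton_subset_iff.2 hB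
      have s' := s.repl (N := {B'.erase x}) hR (erase_subset x W)
        (fun Y hY q => subset_erase.2 ⟨s.sub Y hY, fun r => q (by simp [only Y hY r])⟩)
        (by simpa using ⟨sB, (s.good _ hB).mono (erase_subset _ _)⟩)
        (by simpa using fun v q => int_mono (erase_subset x B') q)
        (by
          simp only [mem_singleton, forall_eq, exists_eq_left]
          intro v q r
          rw [q2] at q
          exact (mem_insert.1 q).resolve_left fun e => k1 (by rwa [uu, ← e]))
        (by simp)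
      have := card_repl (N := {B'.erase x}) hR
      rw [card_singleton, card_singleton] at this
      have cl := ih _ _ (by omega) ((erase_subset x W).trans hW) (by omega) s' (by omega)
      have e : W.erase x ∪ B' = W := Subset.antisymm (union_subset (erase_subset _ _) (s.sub _ hB))
        fun y hy => by by_cases q : y = x <;> simp [q, hx, hy]
      rw [← e]
      refine S.merge K ((erase_subset x W).trans hW) ((s.sub _ hB).trans hW) cl (s.good _ hB)
        (le_trans (by omega) (card_le_card (subset_inter sB (erase_subset _ _)))) ?_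
      rw [e, k2]
      exact insert_subset (mem_union_right _ k4) subset_union_left
    have L : Lin W F := ⟨s.sub, big, fun B hB B' hB' a ha b hb ha' hb' ab => by
        by_contra q
        exact h1 ⟨B, hB, B', hB', q, one_lt_card.2 ⟨a, mem_inter.2 ⟨ha, ha'⟩, b,
          mem_inter.2 ⟨hb, hb'⟩, ab⟩⟩,
      fun B hB x hx => by
        by_contra q
        exact h2 ⟨B, hB, x, hx, fun B' hB' r => by_contra fun e => q ⟨B', hB', e, r⟩⟩,
      fun x hx => by
        obtain ⟨u, -, -, B, hB, k, -⟩ := own x hx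
        exact ⟨B, hB, k⟩,
      s.sum S hW (by omega) big⟩
    have h11 : #W ≤ 11 := by have := L.le; omega
    by_cases N : NoTri F
    · have := L.twelve N (card_pos.1 (by omega))
      omega
    simp only [NoTri, not_forall] at N
    obtain ⟨B, hB, B₁, hB₁, B₂, hB₂, a, ha, b, hb, c, hc, ab, ha', hb', hc', out⟩ := N
    have n1 : B ≠ B₁ := fun e => out (e ▸ hc)
    have n2 : B ≠ B₂ := fun e => out (e ▸ hc')
    have n3 : B₁ ≠ B₂ := fun e => n1 (L.lin B hB B₁ hB₁ a ha b hb ha' (e ▸ hb') ab)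
    have ac : a ≠ c := fun e => out (e ▸ ha)
    have bc : b ≠ c := fun e => out (e ▸ hb)
    have aW := s.sub B hB ha
    have bW := s.sub B hB hb
    have cW := s.sub B₁ hB₁ hc
    obtain ⟨u, hu, k⟩ := S.a1 a (hW aW) b (hW bW) c (hW cW) ab ac bc
    obtain ⟨D, hD, uD⟩ := s.cov u (k.mem hu aW bW cW)
    by_cases e : B = D
    · exact red (s.tri S K hW L h11 hB₁ hB₂ hD n3 (e ▸ n1.symm) (e ▸ n2.symm) hc hc' ha' hb'
        (s.good B hB a ha b hb ab) ⟨k.2.1.symm, k.2.2.symm, k.1⟩ uD)
    by_cases e1 : B₁ = D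
    · exact red (s.tri S K hW L h11 hB hB₂ hD n2 e (e1 ▸ n3.symm) hb hb' ha hc'
        (s.good B₁ hB₁ a ha' c hc ac) ⟨k.1.symm, k.2.2, k.2.1⟩ uD)
    · exact red (s.tri S K hW L h11 hB hB₁ hD n1 e e1 ha ha' hb hc
        (s.good B₂ hB₂ b hb' c hc' bc) k uD)

end Pool.Agent.Lib.MP_66d22e_co
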