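import Mathlib

/-! Triplet covers of binary phylogenetic trees and their shellings. -/

set_option autoImplicit false

namespace Pool.Agent.Lib.MP_66d22e_co

variable {V : Type}

/-- `G` is a tree, the vertices in `X` have degree one and all other vertices have degree three. -/
def IsBin (G : SimpleGraph V) (X : Finset V) : Prop :=
  G.IsTree ∧ ∀ v, (v ∈ X → (G.neighborSet v).ncard = 1) ∧ (v ∉ X → (G.neighborSet v).ncard = 3)

/-- `e` is a two-element subset of `X`. -/
def IsPair (X : Finset V) (e : Sym2 V) : Prop := ∃ a ∈ X, ∃ b ∈ X, a ≠ b ∧ e = s(a, b)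

/-- `a` and `b` are not connected once the edges at `v` are removed. -/
def Sep (G : SimpleGraph V) (v a b : V) : Prop := ¬ (G.deleteIncidenceSet v).Reachable a b

/-- `T` is a triplet cover: a set of pairs of leaves that supports every interior vertex. -/
def Cover (G : SimpleGraph V) (X : Finset V) (T : Finset (Sym2 V)) : Prop :=
  (∀ e ∈ T, IsPair X e) ∧ ∀ v ∉ X, ∃ a ∈ X, ∃ b ∈ X, ∃ c ∈ X,
    Sep G v a b ∧ Sep G v a c ∧ Sep G v b c ∧ s(a, b) ∈ T ∧ s(a, c) ∈ T ∧ s(b, c) ∈ T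

/-- The path from `x` to `a` and the path from `y` to `b` are vertex-disjoint. -/
def Quartet (G : SimpleGraph V) (x a y b : V) : Prop :=
  ∃ (p : G.Walk x a) (q : G.Walk y b), p.IsPath ∧ q.IsPath ∧ p.support.Disjoint q.support

/-- The pairs of leaves outside `T` have a shelling order `a 0 b 0, a 1 b 1, ...`. -/
def Shellable (G : SimpleGraph V) (X : Finset V) (T : Finset (Sym2 V)) : Prop :=
  ∃ (m : ℕ) (a b : Fin m → V), (fun i => s(a i, b i)).Injective ∧
    (∀ e, (∃ i, e = s(a i, b i)) ↔ IsPair X e ∧ e ∉ T) ∧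
    ∀ i, ∃ x ∈ X, ∃ y ∈ X, x ≠ y ∧ x ≠ a i ∧ x ≠ b i ∧ y ≠ a i ∧ y ≠ b i ∧
      Quartet G x (a i) y (b i) ∧
      ∀ e ∈ [s(a i, x), s(a i, y), s(b i, x), s(b i, y), s(x, y)],
        e ∈ T ∨ ∃ j < i, e = s(a j, b j)

end Pool.Agent.Lib.MP_66d22e_co
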