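import Pool.Agent.Lib.MP_66d22e_co.Tree

/-! Interior vertices spanned by a set of leaves; extension and merging of cliques. -/

set_option autoImplicit false
set_option linter.unusedSectionVars false

open Finset

namespace Pool.Agent.Lib.MP_66d22e_co

variable {V : Type} [DecidableEq V] {X I : Finset V} {d : V → V → Fin 3}

/-- The interior vertices at which `Y` shows all three colours. -/
def int (I : Finset V) (d : V → V → Fin 3) (Y : Finset V) : Finset V :=
  I.filter fun v => ∀ i, ∃ a ∈ Y, d v a = i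

theorem mem_int {Y : Finset V} {v : V} : v ∈ int I d Y ↔ v ∈ I ∧ ∀ i, ∃ a ∈ Y, d v a = i :=
  mem_filter

theorem int_mono {Y Z : Finset V} (h : Y ⊆ Z) : int I d Y ⊆ int I d Z := fun _ hv =>
  mem_int.2 ⟨(mem_int.1 hv).1, fun i => ((mem_int.1 hv).2 i).imp fun _ k => ⟨h k.1, k.2⟩⟩

theorem Rb.mem {Y : Finset V} {v a b c : V} (h : Rb d v a b c) (hv : v ∈ I) (ha : a ∈ Y)
    (hb : b ∈ Y) (hc : c ∈ Y) : v ∈ int I d Y := mem_int.2 ⟨hv, fun i => by
  obtain ⟨h1, h2, h3⟩ := h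
  have : d v a = i ∨ d v b = i ∨ d v c = i := by omega
  rcases this with k | k | k
  exacts [⟨a, ha, k⟩, ⟨b, hb, k⟩, ⟨c, hc, k⟩]⟩

theorem rb_of_mem {Y : Finset V} {v : V} (h : v ∈ int I d Y) :
    ∃ a ∈ Y, ∃ b ∈ Y, ∃ c ∈ Y, Rb d v a b c := by
  obtain ⟨a, ha, e0⟩ := (mem_int.1 h).2 0
  obtain ⟨b, hb, e1⟩ := (mem_int.1 h).2 1
  obtain ⟨c, hc, e2⟩ := (mem_int.1 h).2 2
  exact ⟨a, ha, b, hb, c, hc, by omega, by omega, by omega⟩

theorem Rb.ne {v a b c : V} (h : Rb d v a b c) : a ≠ b ∧ a ≠ c ∧ b ≠ c :=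
  ⟨fun e => h.1 (e ▸ rfl), fun e => h.2.1 (e ▸ rfl), fun e => h.2.2 (e ▸ rfl)⟩

theorem card_of_mem {Y : Finset V} {v : V} (h : v ∈ int I d Y) : 3 ≤ #Y := by
  obtain ⟨a, ha, b, hb, c, hc, k⟩ := rb_of_mem h
  exact two_lt_card.2 ⟨a, ha, b, hb, c, hc, k.ne⟩

theorem St.uniq (S : St X I d) {v w a b c : V} (hv : v ∈ I) (hw : w ∈ I) (ha : a ∈ X)
    (hb : b ∈ X) (hc : c ∈ X) (h : Rb d v a b c) (k : Rb d w a b c) : v = w := by
  by_contra e
  obtain ⟨i, j, H⟩ := S.a2 v hv w hw e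
  have := H a ha; have := H b hb; have := H c hc
  unfold Rb at h k
  omega

/-- A further leaf spans exactly one further vertex. -/
theorem St.new (S : St X I d) {Y : Finset V} (hY : Y ⊆ X) (h2 : 2 ≤ #Y) {x : V} (hx : x ∈ X)
    (hxY : x ∉ Y) : ∃ u ∈ I, u ∉ int I d Y ∧ int I d (insert x Y) = insert u (int I d Y) ∧
      (∀ y ∈ Y, d u y ≠ d u x) ∧ ∃ a ∈ Y, ∃ c ∈ Y, Rb d u a c x := by
  have ne : ∀ y ∈ Y, y ≠ x := fun y hy e => hxY (e ▸ hy)
  have ex : ∀ n, ∀ v ∈ I, ∀ a ∈ Y, ∀ c ∈ Y, Rb d v a c x → #{y ∈ Y | d v y = d v x} ≤ n →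
      ∃ u ∈ I, (∀ y ∈ Y, d u y ≠ d u x) ∧ ∃ a ∈ Y, ∃ c ∈ Y, Rb d u a c x := by
    intro n
    induction n with
    | zero =>
      intro v hv a ha c hc k hn
      refine ⟨v, hv, fun y hy e => ?_, a, ha, c, hc, k⟩
      exact (card_pos.2 ⟨y, mem_filter.2 ⟨hy, e⟩⟩).not_ge hn
    | succ n ih =>
      intro v hv a ha c hc k hn
      by_cases e : ∃ y ∈ Y, d v y = d v x
      · obtain ⟨y, hy, e⟩ := e
        obtain ⟨w, hw, k'⟩ := S.a1 a (hY ha) y (hY hy) x hx
          (fun q => k.2.1 (q ▸ e)) (ne a ha) (ne y hy)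
        obtain ⟨i, j, H⟩ := S.a2 v hv w hw fun q => k'.2.2 (q ▸ e)
        refine ih w hw a ha y hy k' (Nat.lt_succ_iff.1 (lt_of_lt_of_le (card_lt_card ⟨?_, ?_⟩) hn))
        · intro z hz
          rw [mem_filter] at hz ⊢
          have := H a (hY ha); have := H y (hY hy); have := H x hx; have := H z (hY hz.1)
          unfold Rb at k k'
          exact ⟨hz.1, by omega⟩
        · exact fun q => k'.2.2 (mem_filter.1 (q (mem_filter.2 ⟨hy, e⟩))).2
      · exact ⟨v, hv, fun y hy q => e ⟨y, hy, q⟩, a, ha, c, hc, k⟩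
  obtain ⟨a, ha, c, hc, ac⟩ := one_lt_card.1 h2
  obtain ⟨v, hv, k⟩ := S.a1 a (hY ha) c (hY hc) x hx ac (ne a ha) (ne c hc)
  obtain ⟨u, hu, k1, a, ha, c, hc, k2⟩ := ex _ v hv a ha c hc k le_rfl
  refine ⟨u, hu, fun q => ?_, ?_, k1, a, ha, c, hc, k2⟩
  · obtain ⟨y, hy, e⟩ := (mem_int.1 q).2 (d u x)
    exact k1 y hy e
  refine Subset.antisymm (fun w hw => ?_) (insert_subset (k2.mem hu (by simp [ha]) (by simp [hc])
    (by simp)) (int_mono (subset_insert _ _)))
  by_contra q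
  rw [mem_insert, not_or] at q
  obtain ⟨hw, all⟩ := mem_int.1 hw
  have : ∀ y ∈ Y, d w y ≠ d w x := fun y hy e => q.2 (mem_int.2 ⟨hw, fun i => by
    obtain ⟨z, hz, e'⟩ := all i
    rcases mem_insert.1 hz with rfl | hz
    exacts [⟨y, hy, e.trans e'⟩, ⟨z, hz, e'⟩]⟩)
  obtain ⟨i, j, H⟩ := S.a2 u hu w hw (Ne.symm q.1)
  obtain ⟨p, hp, e1⟩ := all (d w x + 1)
  obtain ⟨r, hr, e2⟩ := all (d w x + 2)
  have hp' : p ∈ Y := (mem_insert.1 hp).resolve_left fun e => by subst e; omega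
  have hr' : r ∈ Y := (mem_insert.1 hr).resolve_left fun e => by subst e; omega
  have := H x hx; have := H a (hY ha); have := H c (hY hc); have := H p (hY hp')
  have := H r (hY hr'); have := k1 p hp'; have := k1 r hr'; have := this
  have := ‹∀ y ∈ Y, d w y ≠ d w x› a ha; have := ‹∀ y ∈ Y, d w y ≠ d w x› c hc
  unfold Rb at k2
  omega

theorem int_small {Y : Finset V} (h : #Y ≤ 2) : int I d Y = ∅ :=
  eq_empty_of_forall_notMem fun _ hv => by have := card_of_mem hv; omega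

theorem St.card (S : St X I d) {Y : Finset V} (hY : Y ⊆ X) (h2 : 2 ≤ #Y) :
    #(int I d Y) + 2 = #Y := by
  induction Y using Finset.induction_on with
  | empty => simp at h2
  | insert x Y hx ih =>
    rw [card_insert_of_notMem hx] at h2 ⊢
    by_cases h : 2 ≤ #Y
    · obtain ⟨u, -, k1, k2, -⟩ := S.new ((subset_insert _ _).trans hY) h (hY (by simp)) hx
      rw [k2, card_insert_of_notMem k1, ← ih ((subset_insert _ _).trans hY) h]
    · rw [int_small (by rw [card_insert_of_notMem hx]; omega), card_empty]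
      omega

/-- Any two different members of `Y` are related. -/
def Clq (C : V → V → Prop) (Y : Finset V) : Prop := ∀ a ∈ Y, ∀ b ∈ Y, a ≠ b → C a b

/-- The relation `C` is symmetric and closed under the shelling step. -/
structure Cl (X I : Finset V) (d : V → V → Fin 3) (C : V → V → Prop) : Prop where
  symm : ∀ a b, C a b → C b a
  step : ∀ a ∈ X, ∀ c ∈ X, ∀ y ∈ X, ∀ b ∈ X, ∀ u ∈ I, ∀ w ∈ I, Rb d u a c b → Rb d w a c y →
    u ≠ w → C a c → C a y → C c y → C a b → C c b → C y b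

variable {C : V → V → Prop}

theorem Clq.mono {Y Z : Finset V} (h : Clq C Z) (k : Y ⊆ Z) : Clq C Y :=
  fun a ha b hb => h a (k ha) b (k hb)

theorem St.ext (S : St X I d) (K : Cl X I d C) {Y : Finset V} (hY : Y ⊆ X) (h : Clq C Y)
    {a c b u : V} (ha : a ∈ Y) (hc : c ∈ Y) (hb : b ∈ X) (hu : u ∈ I) (k : Rb d u a c b)
    (new : u ∉ int I d Y) (ab : C a b) (cb : C c b) : Clq C (insert b Y) := by
  have key : ∀ y ∈ Y, C y b := fun y hy => by
    by_cases e1 : a = y
    · exact e1 ▸ ab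
    by_cases e2 : c = y
    · exact e2 ▸ cb
    obtain ⟨w, hw, k'⟩ := S.a1 a (hY ha) c (hY hc) y (hY hy) k.ne.1 e1 e2
    exact K.step a (hY ha) c (hY hc) y (hY hy) b hb u hu w hw k k'
      (fun e => new (e ▸ k'.mem hw ha hc hy)) (h a ha c hc k.ne.1) (h a ha y hy e1)
      (h c hc y hy e2) ab cb
  intro p hp q hq pq
  rcases mem_insert.1 hp with rfl | hp' <;> rcases mem_insert.1 hq with rfl | hq'
  exacts [(pq rfl).elim, K.symm _ _ (key q hq'), key p hp', h p hp' q hq' pq]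

theorem St.merge (S : St X I d) (K : Cl X I d C) {Y Z : Finset V} (hY : Y ⊆ X) (hZ : Z ⊆ X)
    (cY : Clq C Y) (cZ : Clq C Z) (h2 : 2 ≤ #(Y ∩ Z))
    (cov : int I d (Y ∪ Z) ⊆ int I d Y ∪ int I d Z) : Clq C (Y ∪ Z) := by
  induction hn : #(Z \ Y) generalizing Y with
  | zero => rwa [union_eq_left.2 (sdiff_eq_empty_iff_subset.1 (card_eq_zero.1 hn))]
  | succ n ih =>
    obtain ⟨z, hz⟩ : (Z \ Y).Nonempty := card_pos.1 (by omega)
    obtain ⟨z1, z2⟩ := mem_sdiff.1 hz
    obtain ⟨u, hu, k1, -, -, a, ha, c, hc, k2⟩ := S.new (inter_subset_left.trans hY) h2 (hZ z1)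
      (fun e => z2 (mem_inter.1 e).1)
    rw [mem_inter] at ha hc
    have e : int I d (Y ∩ Z) = int I d Y ∩ int I d Z := by
      refine eq_of_subset_of_card_le (subset_inter (int_mono inter_subset_left)
        (int_mono inter_subset_right)) ?_
      have := card_le_card cov
      have := card_union_add_card_inter (int I d Y) (int I d Z)
      have := card_union_add_card_inter Y Z
      have := S.card hY (h2.trans (card_le_card inter_subset_left))
      have := S.card hZ (h2.trans (card_le_card inter_subset_right))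
      have := S.card (inter_subset_left.trans hY) h2
      have := S.card (union_subset hY hZ)
        (h2.trans (card_le_card (inter_subset_left.trans subset_union_left)))
      omega
    have cl := S.ext K hY cY ha.1 hc.1 (hZ z1) hu k2
      (fun q => k1 (e ▸ mem_inter.2 ⟨q, k2.mem hu ha.2 hc.2 z1⟩))
      (cZ a ha.2 z z1 k2.ne.2.1) (cZ c hc.2 z z1 k2.ne.2.2)
    have e2 : insert z Y ∪ Z = Y ∪ Z := by rw [insert_union, insert_eq_of_mem (by simp [z1])]
    rw [← e2]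
    refine ih (insert_subset (hZ z1) hY) cl
      (h2.trans (card_le_card (inter_subset_inter_right (subset_insert _ _)))) ?_ ?_
    · rw [e2]
      exact cov.trans (union_subset_union_left (int_mono (subset_insert _ _)))
    · rw [sdiff_insert, card_erase_of_mem hz, hn]
      rfl

end Pool.Agent.Lib.MP_66d22e_co
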