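import Pool.Agent.Lib.MP_66d22e_co.Core

/-! Covers with few pairs and covers of small trees are shellable. -/

set_option autoImplicit false
set_option linter.unusedSectionVars false

open Finset

namespace Pool.Agent.Lib.MP_66d22e_co

variable {V : Type} [DecidableEq V] {X I : Finset V} {d : V → V → Fin 3} {C : V → V → Prop}

theorem St.quart (S : St X I d) {a c y b u w : V} (ha : a ∈ X) (hc : c ∈ X) (hy : y ∈ X)
    (hb : b ∈ X) (hu : u ∈ I) (hw : w ∈ I) (k : Rb d u a c b) (k' : Rb d w a c y) (ne : u ≠ w) :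
    (∀ v ∈ I, d v a = d v y ∨ d v c = d v b) ∨ ∀ v ∈ I, d v c = d v y ∨ d v a = d v b := by
  have key : ∀ p ∈ X, ∀ q ∈ X, ∀ r ∈ X, ∀ s ∈ X, d u p = d u q → d u r ≠ d u p → d u s ≠ d u p →
      ∀ v ∈ I, d v p = d v q ∨ d v r = d v s := fun p hp q hq r hr s hs e1 e2 e3 v hv => by
    by_cases e : v = u
    · exact Or.inl (e ▸ e1)
    obtain ⟨i, j, H⟩ := S.a2 v hv u hu e
    by_cases e' : d u p = j
    · exact Or.inr (((H r hr).resolve_right (e' ▸ e2)).trans
        ((H s hs).resolve_right (e' ▸ e3)).symm)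
    · exact Or.inl (((H p hp).resolve_right e').trans ((H q hq).resolve_right (e1 ▸ e')).symm)
  obtain ⟨i, j, H⟩ := S.a2 u hu w hw ne
  by_cases e : d u a = i
  · have e1 := (H c hc).resolve_left (e ▸ k.1.symm)
    exact Or.inl (key a ha y hy c hc b hb
      (e.trans ((H y hy).resolve_right (e1 ▸ k'.2.2.symm)).symm) k.1.symm k.2.1.symm)
  · have e1 := (H a ha).resolve_left e
    exact Or.inr (key c hc y hy a ha b hb (((H c hc).resolve_right (e1 ▸ k'.1.symm)).trans
      ((H y hy).resolve_right (e1 ▸ k'.2.1.symm)).symm) k.1 k.2.2.symm)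

/-- The members of `T` inside `B`. -/
def ins (T : Finset (Sym2 V)) (B : Finset V) : Finset (Sym2 V) := T ∩ B.sym2

theorem mem_ins {T : Finset (Sym2 V)} {B : Finset V} {a b : V} :
    s(a, b) ∈ ins T B ↔ s(a, b) ∈ T ∧ a ∈ B ∧ b ∈ B := by simp [ins]

theorem St.count (S : St X I d) (K : Cl X I d C) {T : Finset (Sym2 V)} (hT : ∀ e ∈ T, IsPair X e)
    (hC : ∀ a b, s(a, b) ∈ T → C a b) (h3 : 3 ≤ #X)
    (cov : ∀ v ∈ I, ∃ a ∈ X, ∃ b ∈ X, ∃ c ∈ X, Rb d v a b c ∧ s(a, b) ∈ T ∧ s(a, c) ∈ T ∧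
      s(b, c) ∈ T) (small : #X ≤ 11 ∨ #T ≤ 2 * #X + 2) : Clq C X := by
  let P : Finset V → Prop := fun B => Clq C B ∧ 2 * #B ≤ #(ins T B) + 3
  have loop : ∀ n F, #F ≤ n → Sys I d P X F → ∃ F, Sys I d P X F ∧ (∀ B ∈ F, 3 ≤ #B) ∧
      ∀ Y ∈ F, ∀ Z ∈ F, Y ≠ Z → #(Y ∩ Z) ≤ 1 := by
    intro n
    induction n with
    | zero => exact fun F h s => ⟨F, s, by simp [card_eq_zero.1 (Nat.le_zero.1 h)]⟩
    | succ n ih =>
      intro F h s
      by_cases h1 : ∃ Y ∈ F, ∃ Z ∈ F, Y ≠ Z ∧ 2 ≤ #(Y ∩ Z)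
      · obtain ⟨Y, hY, Z, hZ, ne, h2⟩ := h1
        obtain ⟨c2, e, k⟩ := s.two S Subset.rfl hY hZ ne h2
        obtain ⟨F', s', lt⟩ := k ⟨S.merge K (s.sub Y hY) (s.sub Z hZ) (s.good Y hY).1
          (s.good Z hZ).1 h2 e.le, by
            obtain ⟨p, q, pq, e2⟩ := card_eq_two.1 c2
            have h4 : #(ins T Y ∩ ins T Z) ≤ 1 := (card_le_card (t := {s(p, q)}) fun e he => by
              obtain ⟨a, -, b, -, ab, rfl⟩ := hT e (mem_inter.1 (mem_inter.1 he).1).1
              rw [mem_inter, mem_ins, mem_ins] at he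
              have ha : a ∈ ({p, q} : Finset V) := e2 ▸ mem_inter.2 ⟨he.1.2.1, he.2.2.1⟩
              have hb : b ∈ ({p, q} : Finset V) := e2 ▸ mem_inter.2 ⟨he.1.2.2, he.2.2.2⟩
              simp only [mem_insert, mem_singleton, Sym2.eq_iff] at ha hb ⊢
              grind).trans (card_singleton _).le
            have : ins T Y ∪ ins T Z ⊆ ins T (Y ∪ Z) := union_subset
              (inter_subset_inter_left (sym2_mono subset_union_left))
              (inter_subset_inter_left (sym2_mono subset_union_right))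
            have := card_le_card this
            have := card_union_add_card_inter (ins T Y) (ins T Z)
            have := card_union_add_card_inter Y Z
            have := (s.good Y hY).2
            have := (s.good Z hZ).2
            omega⟩
        exact ih F' (by omega) s'
      · exact ⟨_, s.filt, fun B hB => (mem_filter.1 hB).2, fun Y hY Z hZ ne => by
          by_contra q
          exact h1 ⟨Y, (mem_filter.1 hY).1, Z, (mem_filter.1 hZ).1, ne, by omega⟩⟩
  choose! a ha b hb c hc k t1 t2 t3 using cov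
  have sub : ∀ v ∈ I, ({a v, b v, c v} : Finset V) ⊆ X := fun v hv =>
    insert_subset (ha v hv) (insert_subset (hb v hv) (singleton_subset_iff.2 (hc v hv)))
  have c3 : ∀ v ∈ I, #({a v, b v, c v} : Finset V) = 3 := fun v hv =>
    card_eq_three.2 ⟨_, _, _, (k v hv).ne.1, (k v hv).ne.2.1, (k v hv).ne.2.2, rfl⟩
  have one : ∀ v ∈ I, int I d {a v, b v, c v} = {v} := fun v hv => by
    refine (eq_of_subset_of_card_le (singleton_subset_iff.2 ((k v hv).mem hv (by simp) (by simp)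
      (by simp))) ?_).symm
    have := S.card (sub v hv) (by rw [c3 v hv]; omega)
    rw [c3 v hv] at this
    rw [card_singleton]
    omega
  obtain ⟨F, s, big, lin⟩ := loop _ (I.image fun v => {a v, b v, c v}) le_rfl
    ⟨forall_mem_image.2 sub, forall_mem_image.2 fun v hv => ⟨fun p hp q hq pq => by
      have := hC _ _ (t1 v hv); have := hC _ _ (t2 v hv); have := hC _ _ (t3 v hv)
      have := K.symm
      simp only [mem_insert, mem_singleton] at hp hq
      grind, by
      have : 2 < #(ins T {a v, b v, c v}) := two_lt_card.2 ⟨_, mem_ins.2 ⟨t1 v hv, by simp, by simp⟩,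
        _, mem_ins.2 ⟨t2 v hv, by simp, by simp⟩, _, mem_ins.2 ⟨t3 v hv, by simp, by simp⟩, by
          have := (k v hv).ne
          simp only [ne_eq, Sym2.eq_iff]
          grind⟩
      rw [c3 v hv]
      omega⟩,
    fun v hv => ⟨_, mem_image_of_mem _ (mem_int.1 hv).1, by simp [one v (mem_int.1 hv).1]⟩,
    forall_mem_image.2 fun v hv => forall_mem_image.2 fun w hw z q q' => by
      rw [one _ hv, mem_singleton] at q
      rw [one _ hw, mem_singleton] at q'
      rw [← q, ← q']⟩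
  refine core S K _ X F le_rfl Subset.rfl h3 ⟨s.sub, fun B hB => (s.good B hB).1, s.cov, s.dis⟩ ?_
  have h1 := s.sum S Subset.rfl (by omega) big
  have h2 : #(F.biUnion (ins T)) = ∑ B ∈ F, #(ins T B) := card_biUnion fun Y hY Z hZ ne =>
    disjoint_left.2 fun e q q' => by
      obtain ⟨a, -, b, -, ab, rfl⟩ := hT e (mem_inter.1 q).1
      rw [mem_ins] at q q'
      exact ab (card_le_one.1 (lin Y hY Z hZ ne) a (mem_inter.2 ⟨q.2.1, q'.2.1⟩) b
        (mem_inter.2 ⟨q.2.2, q'.2.2⟩))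
  have h4 : #(F.biUnion (ins T)) ≤ #T :=
    card_le_card (biUnion_subset.2 fun B _ => inter_subset_left)
  have h5 := sum_le_sum fun B hB => (s.good B hB).2
  rw [← mul_sum, sum_add_distrib, sum_const, smul_eq_mul] at h5
  omega

theorem shellable [Fintype V] {G : SimpleGraph V} (h : IsBin G X) (h3 : 3 ≤ #X)
    {T : Finset (Sym2 V)} (hT : Cover G X T) (small : #X ≤ 11 ∨ #T ≤ 2 * #X + 2) :
    Shellable G X T := by
  obtain ⟨d, S, sep, qt, -⟩ := h.st
  let Val : ℕ → Prop := fun m => ∃ a b : Fin m → V, (fun i => s(a i, b i)).Injective ∧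
    (∀ i, IsPair X s(a i, b i) ∧ s(a i, b i) ∉ T) ∧
    ∀ i, ∃ x ∈ X, ∃ y ∈ X, x ≠ y ∧ x ≠ a i ∧ x ≠ b i ∧ y ≠ a i ∧ y ≠ b i ∧
      Quartet G x (a i) y (b i) ∧
      ∀ e ∈ [s(a i, x), s(a i, y), s(b i, x), s(b i, y), s(x, y)],
        e ∈ T ∨ ∃ j < i, e = s(a j, b j)
  obtain ⟨m, ⟨a, b, inj, out, ok⟩, mx⟩ : ∃ m, Val m ∧ ¬ Val (m + 1) := by
    by_contra q
    push Not at q
    have all : ∀ m, Val m := fun m => Nat.rec ⟨Fin.elim0, Fin.elim0, fun i => i.elim0,
      fun i => i.elim0, fun i => i.elim0⟩ q m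
    obtain ⟨a, b, inj, -⟩ := all (Fintype.card (Sym2 V) + 1)
    simpa using Fintype.card_le_of_injective _ inj
  let C : V → V → Prop := fun p q => s(p, q) ∈ T ∨ ∃ j, s(p, q) = s(a j, b j)
  have sy : ∀ p q, C p q → C q p := fun p q k => by simpa only [C, Sym2.eq_swap (a := q)] using k
  have ext : ∀ x ∈ X, ∀ p ∈ X, ∀ y ∈ X, ∀ q ∈ X, x ≠ y → x ≠ p → x ≠ q → y ≠ p → y ≠ q → p ≠ q →
      Quartet G x p y q → C p x → C p y → C q x → C q y → C x y → C p q := by
    intro x hx p hp y hy q hq xy xp xq yp yq pq Q c1 c2 c3 c4 c5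
    by_contra no
    simp only [C, not_or, not_exists] at no
    refine mx ⟨Fin.snoc a p, Fin.snoc b q, fun i j e => ?_, fun i => ?_, fun i => ?_⟩
    · induction i using Fin.lastCases <;> induction j using Fin.lastCases <;>
        simp only [Fin.snoc_last, Fin.snoc_castSucc] at e
      exacts [rfl, (no.2 _ e).elim, (no.2 _ e.symm).elim, congrArg _ (inj e)]
    · induction i using Fin.lastCases <;> simp only [Fin.snoc_last, Fin.snoc_castSucc]
      exacts [⟨⟨p, hp, q, hq, pq, rfl⟩, no.1⟩, out _]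
    · induction i using Fin.lastCases with
      | last =>
        simp only [Fin.snoc_last]
        refine ⟨x, hx, y, hy, xy, xp, xq, yp, yq, Q, fun e he => ?_⟩
        have : e ∈ T ∨ ∃ j, e = s(a j, b j) := by
          simp only [List.mem_cons, List.not_mem_nil, or_false] at he
          rcases he with rfl | rfl | rfl | rfl | rfl
          exacts [c1, c2, c3, c4, c5]
        exact this.imp_right fun ⟨j, e⟩ => ⟨j.castSucc, Fin.castSucc_lt_last j, by simpa using e⟩
      | cast i =>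
        simp only [Fin.snoc_castSucc]
        obtain ⟨x, hx, y, hy, k1, k2, k3, k4, k5, k6, k7⟩ := ok i
        exact ⟨x, hx, y, hy, k1, k2, k3, k4, k5, k6, fun e he => (k7 e he).imp_right
          fun ⟨j, lt, e⟩ => ⟨j.castSucc, by simpa using lt, by simpa using e⟩⟩
  have K : Cl X Xᶜ d C := ⟨sy, fun a ha c hc y hy b hb u hu w hw k k' ne c1 c2 c3 c4 c5 => by
    have yb : y ≠ b := fun e => ne (S.uniq hu hw ha hc hb k (e ▸ k'))
    obtain ⟨n1, n2, n3⟩ := k.ne
    obtain ⟨-, n4, n5⟩ := k'.ne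
    rcases S.quart ha hc hy hb hu hw k k' ne with q | q
    · exact ext a ha y hy c hc b hb n1 n4 n2 n5 n3 yb (qt a ha y hy c hc b hb n1 n2 n5.symm yb
        fun v hv => q v (mem_compl.2 hv)) (sy _ _ c2) (sy _ _ c3) (sy _ _ c4) (sy _ _ c5) c1
    · exact ext c hc y hy a ha b hb n1.symm n5 n3 n4 n2 yb (qt c hc y hy a ha b hb n1.symm n3
        n4.symm yb fun v hv => q v (mem_compl.2 hv)) (sy _ _ c3) (sy _ _ c2) (sy _ _ c5)
        (sy _ _ c4) (sy _ _ c1)⟩
  have cl := S.count K hT.1 (fun _ _ => Or.inl) h3 (fun v hv => by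
    obtain ⟨a, ha, b, hb, c, hc, k1, k2, k3, k⟩ := hT.2 v (mem_compl.1 hv)
    have := sep v (mem_compl.1 hv)
    exact ⟨a, ha, b, hb, c, hc, ⟨(this a ha b hb).1 k1, (this a ha c hc).1 k2,
      (this b hb c hc).1 k3⟩, k⟩) small
  refine ⟨m, a, b, inj, fun e => ⟨?_, ?_⟩, ok⟩
  · rintro ⟨i, rfl⟩
    exact out i
  · rintro ⟨⟨p, hp, q, hq, pq, rfl⟩, no⟩
    exact (cl p hp q hq pq).resolve_left no

end Pool.Agent.Lib.MP_66d22e_co
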