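import Mathlib

/-! Rooted binary trees with eleven leaves carry the three by four grid. -/

set_option autoImplicit false

namespace Pool.Agent.Lib.MP_66d22e_co

/-- Rooted binary trees with labelled leaves. -/
inductive LT (α : Type) : Type
  | leaf (a : α) : LT α
  | node (l r : LT α) : LT α
  deriving DecidableEq

namespace LT

variable {α β : Type}

/-- The labels. -/
def leaves : LT α → List α
  | leaf a => [a]
  | node l r => l.leaves ++ r.leaves

/-- The labels below the two children, for each node. -/
def splits : LT α → List (List α × List α)
  | leaf _ => []
  | node l r => (l.leaves, r.leaves) :: (l.splits ++ r.splits)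

/-- Change of labels. -/
def map (g : α → β) : LT α → LT β
  | leaf a => leaf (g a)
  | node l r => node (l.map g) (r.map g)

/-- The left child is never larger than the right child. -/
def Bal : LT α → Prop
  | leaf _ => True
  | node l r => l.leaves.length ≤ r.leaves.length ∧ l.Bal ∧ r.Bal

theorem leaves_map (g : α → β) (t : LT α) : (t.map g).leaves = t.leaves.map g := by
  induction t <;> simp [map, leaves, *]

theorem splits_map (g : α → β) (t : LT α) :
    (t.map g).splits = t.splits.map fun p => (p.1.map g, p.2.map g) := by
  induction t <;> simp [map, splits, leaves_map, *]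

theorem splits_sub (t : LT α) : ∀ p ∈ t.splits, p.1 ⊆ t.leaves ∧ p.2 ⊆ t.leaves := by
  induction t with
  | leaf => simp [splits]
  | node l r h1 h2 =>
    simp only [splits, leaves, List.mem_cons, List.mem_append]
    rintro p (rfl | h | h)
    · simp
    · exact ⟨fun x k => List.mem_append_left _ ((h1 p h).1 k),
        fun x k => List.mem_append_left _ ((h1 p h).2 k)⟩
    · exact ⟨fun x k => List.mem_append_right _ ((h2 p h).1 k),
        fun x k => List.mem_append_right _ ((h2 p h).2 k)⟩

theorem map_congr {g g' : α → β} (t : LT α) (h : ∀ a ∈ t.leaves, g a = g' a) :
    t.map g = t.map g' := by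
  induction t with
  | leaf a => simp [map, h a (by simp [leaves])]
  | node l r h1 h2 =>
    rw [map, map, h1 fun a k => h a (by simp [leaves, k]), h2 fun a k => h a (by simp [leaves, k])]

theorem zip [DecidableEq α] (s : LT α) : ∀ (t : LT β) (g0 : α → β), s.leaves.Nodup →
    (s.map fun _ => ()) = t.map (fun _ => ()) →
    ∃ g, s.map g = t ∧ ∀ a, a ∉ s.leaves → g a = g0 a := by
  induction s with
  | leaf a =>
    rintro (b | _) g0 - h
    · exact ⟨Function.update g0 a b, by simp [map], fun x hx =>
        Function.update_of_ne (by simpa [leaves] using hx) _ _⟩
    · simp [map] at h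
  | node l r h1 h2 =>
    rintro (b | ⟨l', r'⟩) g0 nd h
    · simp [map] at h
    simp only [map, node.injEq] at h
    rw [leaves, List.nodup_append] at nd
    obtain ⟨g1, e1, k1⟩ := h1 l' g0 nd.1 h.1
    obtain ⟨g2, e2, k2⟩ := h2 r' g1 nd.2.1 h.2
    refine ⟨g2, ?_, fun a ha => ?_⟩
    · rw [map, e2, ← e1, map_congr l fun a ha => k2 a fun k => nd.2.2 a ha a k rfl]
    · simp only [leaves, List.mem_append, not_or] at ha
      rw [k2 a ha.2, k1 a ha.1]

theorem pos (t : LT α) : 0 < t.leaves.length := by
  induction t <;> simp [leaves, *]

/-- The balanced shapes with `n` leaves. -/
def gen : ℕ → ℕ → List (LT Unit)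
  | 0, _ => []
  | f + 1, n => if n = 1 then [leaf ()] else (List.range (n / 2)).flatMap fun i =>
      (gen f (i + 1)).flatMap fun l => (gen f (n - (i + 1))).map fun r => node l r

theorem mem_gen (t : LT α) : ∀ f, t.Bal → t.leaves.length ≤ f →
    (t.map fun _ => ()) ∈ gen f t.leaves.length := by
  induction t with
  | leaf a =>
    rintro (_ | f) - h
    · simp [leaves] at h
    · simp [gen, leaves, map]
  | node l r h1 h2 =>
    have := l.pos
    have := r.pos
    rintro (_ | f) b h <;> simp only [leaves, List.length_append] at h ⊢
    · omega
    rw [gen, if_neg (by omega)]
    simp only [List.mem_flatMap, List.mem_range, List.mem_map]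
    have := b.1
    refine ⟨l.leaves.length - 1, by omega, _, ?_, _, ?_, rfl⟩
    · rw [Nat.sub_add_cancel (by omega)]
      exact h1 f b.2.1 (by omega)
    · rw [Nat.sub_add_cancel (by omega), Nat.add_sub_cancel_left]
      exact h2 f b.2.2 (by omega)

/-- Labels the leaves by the digits of a number. -/
def fill : LT Unit → ℕ → LT (Fin 12) × ℕ
  | leaf _, c => (leaf (Fin.ofNat 12 c), c / 12)
  | node l r, c => let a := fill l c; let b := fill r a.2; (node a.1 b.1, b.2)

end LT

/-- The ten triples: two in each row of the grid and the four columns. -/
def trip : List (Fin 12 × Fin 12 × Fin 12) :=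
  [(0, 1, 2), (4, 5, 6), (8, 9, 10), (1, 2, 3), (5, 6, 7), (9, 10, 11), (0, 4, 8), (1, 5, 9),
    (2, 6, 10), (3, 7, 11)]

/-- The side of a label at a node. -/
def side (p : List (Fin 12) × List (Fin 12)) (a : Fin 12) : ℕ :=
  if a ∈ p.1 then 0 else if a ∈ p.2 then 1 else 2

/-- The labels are different and each node separates one of the ten triples. -/
def Ok (s : LT (Fin 12)) : Prop :=
  s.leaves.Nodup ∧ ∀ p ∈ s.splits, ∃ q ∈ trip,
    side p q.1 ≠ side p q.2.1 ∧ side p q.1 ≠ side p q.2.2 ∧ side p q.2.1 ≠ side p q.2.2

instance : DecidablePred Ok := fun s => by unfold Ok; infer_instance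

/-- One labelling for each shape. -/
def codes : List ℕ := [
  677060773788, 452815442860, 201139896490, 243314063430, 349873599890, 346528731248, 730984936118,
  23582165805, 603534331298, 315032950470, 462810476589, 81520322306, 7127361716, 463954777168,
  10910176091, 678661343443, 196787807069, 549782616207, 451873273832, 6413320841, 499860684773,
  549233131187, 63014087720, 89661942284, 543895510219, 549417061765, 700906610648, 409870555335,
  347093393493, 350482285162, 180461194171, 730766010998, 449695336103, 6191374410, 410098078211,
  333630489250, 80062597882, 719743869724, 192048929772, 191084277247, 359509616159, 139986920987,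
  24695744279, 277411572855, 567407347298, 113336815170, 176775225412, 449825569990, 655197477989,
  654977614716, 451199413446, 614981712304, 243041302135, 79723297974, 411698079363, 349667372163,
  139685608183, 9753868505, 697443536838, 603054138434, 599158176120, 617642292678, 246688371222,
  89363593656, 736613734406, 464478133703, 109867406507, 357997610206, 175971119731, 385254339712,
  518169899226, 697673932753, 291784611425, 634488830857, 45522346511, 492087647346, 142702915636,
  602915312527, 141729686857, 318112611648, 179289008213, 128927150552, 87858531194, 732054643296,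
  282198658786, 63014213588, 195305945032, 109805474436, 396448963088, 223106686033, 733694287477,
  653286052124, 143596968893, 520323890495, 196844766917, 315630284768, 318160286864, 428158061656,
  719145097013, 736328809694, 586177112555, 450808874912, 333627606876, 598744561327, 318151581524,
  450140000257, 250504621391, 142059617724, 199074524545, 346143420419, 697672209268, 154858933972,
  276770893806, 125410963641, 465846206696, 518191622282, 425081987781, 194028909477, 159662558227,
  279689075998, 731026178284, 128685841594, 64386267194, 409123688973, 677257639557, 90890075400,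
  246696606954, 586778502252, 23475478461, 462114929122, 383683027677, 615248234683, 602978021503,
  282936118957, 546993394325, 677390650063, 346148915159, 653899046304, 736596622010, 468440923210,
  6677404388, 291716162354, 128023965724, 127541286940, 383831737165, 396848646578, 700907866760,
  679529784840, 423272131649, 562645195145, 42476774869, 614450986458, 243639625065, 463230400950,
  392188796335, 359750901361, 651869155743, 464322513349, 11175631747, 542617882308, 394624402004,
  730829928100, 249013888817, 144358643884, 654970298275, 602919602645, 677028499221, 125402344770,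
  583347777294, 562508596867, 291474403725, 545194413110, 586508710910, 651686285348, 679037424549,
  242957046038, 630928154221, 334358503302, 550195215664, 697378474421, 361121019132, 548303666680,
  499454167333, 383796692230, 155249871759, 346543913193, 462169650349, 661470185023, 88002493130,
  250102956405, 679022134961, 665397115577, 411893719201, 11017719292, 63400091594, 727981234106,
  111926417597, 411430109937, 12242470047, 494661193562, 251722429447, 156936124181, 427944378866,
  91166133258, 730976174281, 664546071803, 144367486486, 248594199343, 41898717923, 25171633771,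
  466061785368, 143935742881, 463395912636, 600436743406]

/-- The labelled trees. -/
def table : List (LT (Fin 12)) := List.zipWith (fun s c => (s.fill c).1) (LT.gen 11 11) codes

theorem table_shape : table.map (LT.map fun _ => ()) = LT.gen 11 11 := by decide +kernel

theorem table_ok : ∀ s ∈ table, Ok s := by decide +kernel

theorem exists_ok {α : Type} (t : LT α) (b : t.Bal) (h : t.leaves.length = 11) :
    ∃ s, Ok s ∧ (s.map fun _ => ()) = t.map fun _ => () := by
  have := t.mem_gen 11 b h.le
  rw [h, ← table_shape, List.mem_map] at this
  obtain ⟨s, k, e⟩ := this
  exact ⟨s, table_ok s k, e⟩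

end Pool.Agent.Lib.MP_66d22e_co
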