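import Pool.Agent.Lib.MP_66d22e_co.Defs

/-! The three directions at an interior vertex of a binary tree. -/

set_option autoImplicit false

open SimpleGraph

namespace Pool.Agent.Lib.MP_66d22e_co

variable {V : Type} {G : SimpleGraph V}

/-- There is a walk from `a` to `b` that avoids `v`. -/
def Av (G : SimpleGraph V) (v a b : V) : Prop := ∃ p : G.Walk a b, v ∉ p.support

theorem Av.symm {v a b : V} (h : Av G v a b) : Av G v b a := by
  obtain ⟨p, hp⟩ := h
  exact ⟨p.reverse, by simpa using hp⟩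

theorem Av.trans {v a b c : V} (h : Av G v a b) (k : Av G v b c) : Av G v a c := by
  obtain ⟨p, hp⟩ := h
  obtain ⟨q, hq⟩ := k
  exact ⟨p.append q, by simp [Walk.mem_support_append_iff, hp, hq]⟩

theorem sep_iff {v a b : V} (ha : a ≠ v) : Sep G v a b ↔ ¬ Av G v a b := by
  refine not_congr ⟨?_, ?_⟩
  · rintro ⟨p⟩
    induction p with
    | nil => exact ⟨.nil, by simpa using ha.symm⟩
    | cons h p ih =>
      rw [deleteIncidenceSet_adj] at h
      obtain ⟨q, hq⟩ := ih h.2.2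
      exact ⟨.cons h.1 q, by simp [hq, ha.symm]⟩
  · rintro ⟨p, hp⟩
    clear ha
    induction p with
    | nil => rfl
    | cons h p ih =>
      simp only [Walk.support_cons, List.mem_cons, not_or] at hp
      refine (Adj.reachable (deleteIncidenceSet_adj.2 ⟨h, Ne.symm hp.1, ?_⟩)).trans (ih hp.2)
      rintro rfl
      exact hp.2 p.start_mem_support

theorem not_av_of_path (hT : G.IsTree) {v a b : V} {p : G.Walk a b} (hp : p.IsPath)
    (hv : v ∈ p.support) : ¬ Av G v a b := by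
  classical
  rintro ⟨q, hq⟩
  have : q.bypass = p := (hT.existsUnique_path a b).unique q.bypass_isPath hp
  exact hq (q.support_bypass_subset_support (this ▸ hv))

theorem exists_nb (hT : G.IsTree) {v x : V} (h : x ≠ v) : ∃ n, G.Adj v n ∧ Av G v n x := by
  obtain ⟨p, hp, -⟩ := hT.existsUnique_path v x
  cases p with
  | nil => exact (h rfl).elim
  | cons h p => exact ⟨_, h, p, ((Walk.cons_isPath_iff _ _).1 hp).2⟩

theorem nb_sep (hT : G.IsTree) {v n n' : V} (h : G.Adj v n) (h' : G.Adj v n')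
    (a : Av G v n n') : n = n' := by
  by_contra hn
  refine not_av_of_path hT (p := .cons h.symm (.cons h' .nil)) ?_ (by simp) a
  simp [Walk.isPath_def, h.ne', h'.ne, hn]

theorem median (hT : G.IsTree) {a b : V} (c : V) (p : G.Walk a b) (hp : p.IsPath) :
    ∃ v ∈ p.support, ¬ Av G v a c ∧ ¬ Av G v b c := by
  classical
  induction p with
  | nil => exact ⟨_, by simp, fun ⟨q, hq⟩ => hq q.start_mem_support,
      fun ⟨q, hq⟩ => hq q.start_mem_support⟩
  | @cons a a' b h p ih =>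
    obtain ⟨h1, h2⟩ := (Walk.cons_isPath_iff _ _).1 hp
    by_cases k : Av G a a' c
    · obtain ⟨v, hv, k1, k2⟩ := ih h1
      obtain ⟨q, hq⟩ := k
      refine ⟨v, by simp [hv], not_av_of_path hT (p := .cons h q.bypass) ?_ ?_, k2⟩
      · exact (Walk.cons_isPath_iff _ _).2
          ⟨q.bypass_isPath, fun m => hq (q.support_bypass_subset_support m)⟩
      · by_contra hn
        simp only [Walk.support_cons, List.mem_cons, not_or] at hn
        exact k1 ⟨_, hn.2⟩
    · exact ⟨a, by simp, fun ⟨q, hq⟩ => hq q.start_mem_support, fun m => k (Av.trans ⟨p, h2⟩ m)⟩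

theorem two_sides (hT : G.IsTree) {v w x : V} (h : v ≠ w) :
    Av G v x w ∨ Av G w x v := by
  classical
  obtain ⟨p, hp, -⟩ := hT.existsUnique_path x w
  by_cases hv : v ∈ p.support
  · exact Or.inr ⟨p.takeUntil v hv, Walk.endpoint_notMem_support_takeUntil hp hv h.symm⟩
  · exact Or.inl ⟨p, hv⟩

theorem IsBin.leaf {X : Finset V} (h : IsBin G X) {v a b : V} (hv : v ∈ X) (ha : a ≠ v)
    (hb : b ≠ v) : Av G v a b := by
  obtain ⟨n, hn⟩ := Set.ncard_eq_one.1 ((h.2 v).1 hv)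
  obtain ⟨n1, k1, k2⟩ := exists_nb h.1 ha
  obtain ⟨n2, k3, k4⟩ := exists_nb h.1 hb
  have e1 : n1 = n := by simpa [hn] using (show n1 ∈ G.neighborSet v from k1)
  have e2 : n2 = n := by simpa [hn] using (show n2 ∈ G.neighborSet v from k3)
  exact k2.symm.trans (e1 ▸ e2 ▸ k4)

/-- At `v` the points `a`, `b`, `c` have three different colours. -/
def Rb (d : V → V → Fin 3) (v a b c : V) : Prop := d v a ≠ d v b ∧ d v a ≠ d v c ∧ d v b ≠ d v c

/-- Leaves `X`, interior vertices `I`, and for each of these a colouring of the leaves. -/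
structure St (X I : Finset V) (d : V → V → Fin 3) : Prop where
  a1 : ∀ a ∈ X, ∀ b ∈ X, ∀ c ∈ X, a ≠ b → a ≠ c → b ≠ c → ∃ v ∈ I, Rb d v a b c
  a2 : ∀ v ∈ I, ∀ w ∈ I, v ≠ w → ∃ i j, ∀ x ∈ X, d v x = i ∨ d w x = j

theorem IsBin.dir {X : Finset V} (h : IsBin G X) : ∃ d : V → V → Fin 3,
    ∀ v ∉ X, ∀ a b, a ≠ v → b ≠ v → (d v a = d v b ↔ Av G v a b) := by
  have key : ∀ v, ∃ f : V → Fin 3, v ∉ X → ∀ a b, a ≠ v → b ≠ v → (f a = f b ↔ Av G v a b) := by
    intro v
    by_cases hv : v ∈ X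
    · exact ⟨0, fun k => (k hv).elim⟩
    have h3 := (h.2 v).2 hv
    have fin : (G.neighborSet v).Finite := Set.finite_of_ncard_ne_zero (by omega)
    have := fin.to_subtype
    let e : G.neighborSet v ≃ Fin 3 := Finite.equivFinOfCardEq h3
    have : ∀ x, ∃ i : Fin 3, x ≠ v → Av G v (e.symm i) x := fun x => by
      by_cases hx : x = v
      · exact ⟨0, fun k => (k hx).elim⟩
      obtain ⟨n, k1, k2⟩ := exists_nb h.1 hx
      exact ⟨e ⟨n, k1⟩, fun _ => by simpa using k2⟩
    choose f hf using this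
    refine ⟨f, fun _ a b ha hb => ⟨fun k => (hf a ha).symm.trans (k ▸ hf b hb), fun k => ?_⟩⟩
    exact e.symm.injective (Subtype.ext (nb_sep h.1 (e.symm _).2 (e.symm _).2
      (((hf a ha).trans k).trans (hf b hb).symm)))
  choose d hd using key
  exact ⟨d, hd⟩

theorem IsBin.st [Fintype V] [DecidableEq V] {X : Finset V} (h : IsBin G X) :
    ∃ d : V → V → Fin 3, St X Xᶜ d ∧
      (∀ v ∉ X, ∀ a ∈ X, ∀ b ∈ X, Sep G v a b ↔ d v a ≠ d v b) ∧
      (∀ x ∈ X, ∀ a ∈ X, ∀ y ∈ X, ∀ b ∈ X, x ≠ y → x ≠ b → a ≠ y → a ≠ b →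
        (∀ v ∉ X, d v x = d v a ∨ d v y = d v b) → Quartet G x a y b) ∧
      Xᶜ.card + 2 = X.card := by
  obtain ⟨d, hd⟩ := h.dir
  have ne : ∀ {v a}, v ∉ X → a ∈ X → a ≠ v := fun hv ha e => hv (e ▸ ha)
  refine ⟨d, ⟨fun a ha b hb c hc ab ac bc => ?_, fun v hv w hw vw => ?_⟩,
    fun v hv a ha b hb => ?_, fun x hx a ha y hy b hb xy xb ay ab H => ?_, ?_⟩
  · obtain ⟨p, hp, -⟩ := h.1.existsUnique_path a b
    obtain ⟨v, k0, k1, k2⟩ := median h.1 c p hp
    have k3 := not_av_of_path h.1 hp k0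
    have hv : v ∉ X := fun hv => by
      by_cases e1 : a = v
      · exact k2 (h.leaf hv (e1 ▸ ab.symm) (e1 ▸ ac.symm))
      by_cases e2 : b = v
      · exact k1 (h.leaf hv e1 (e2 ▸ bc.symm))
      · exact k3 (h.leaf hv e1 e2)
    exact ⟨v, Finset.mem_compl.2 hv, mt (hd v hv _ _ (ne hv ha) (ne hv hb)).1 k3,
      mt (hd v hv _ _ (ne hv ha) (ne hv hc)).1 k1, mt (hd v hv _ _ (ne hv hb) (ne hv hc)).1 k2⟩
  · rw [Finset.mem_compl] at hv hw
    exact ⟨d v w, d w v, fun x hx => (two_sides (x := x) h.1 vw).imp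
      (hd v hv _ _ (ne hv hx) vw.symm).2 (hd w hw _ _ (ne hw hx) vw).2⟩
  · rw [sep_iff (ne hv ha), ← hd v hv _ _ (ne hv ha) (ne hv hb)]
  · obtain ⟨p, hp, -⟩ := h.1.existsUnique_path x a
    obtain ⟨q, hq, -⟩ := h.1.existsUnique_path y b
    refine ⟨p, q, hp, hq, fun u k1 k2 => ?_⟩
    have k3 := not_av_of_path h.1 hp k1
    have k4 := not_av_of_path h.1 hq k2
    by_cases hu : u ∈ X
    · by_cases e1 : x = u
      · exact k4 (h.leaf hu (e1 ▸ xy.symm) (e1 ▸ xb.symm))
      by_cases e2 : a = u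
      · exact k4 (h.leaf hu (e2 ▸ ay.symm) (e2 ▸ ab.symm))
      · exact k3 (h.leaf hu e1 e2)
    · exact (H u hu).elim (fun e => k3 ((hd u hu _ _ (ne hu hx) (ne hu ha)).1 e))
        fun e => k4 ((hd u hu _ _ (ne hu hy) (ne hu hb)).1 e)
  · classical
    have e1 := h.1.card_edgeFinset
    have e2 := G.sum_degrees_eq_twice_card_edges
    have dg : ∀ v, (G.neighborSet v).ncard = G.degree v := fun v => by
      rw [← card_neighborFinset_eq_degree, ← Set.ncard_coe_finset, coe_neighborFinset]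
    rw [← Finset.sum_add_sum_compl X, Finset.sum_congr rfl fun v hv => (dg v).symm.trans
      ((h.2 v).1 hv), Finset.sum_congr rfl fun v hv => (dg v).symm.trans
      ((h.2 v).2 (Finset.mem_compl.1 hv))] at e2
    have e3 := Finset.card_add_card_compl X
    simp only [Finset.sum_const, smul_eq_mul] at e2
    omega

end Pool.Agent.Lib.MP_66d22e_co
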