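import Pool.Agent.Lib.MP_66d22e_co.Low
import Pool.Agent.Lib.MP_66d22e_co.Tab

/-! Covers that are not shellable. -/

set_option autoImplicit false
set_option linter.unusedSectionVars false

open Finset

namespace Pool.Agent.Lib.MP_66d22e_co

variable {V : Type} [DecidableEq V] {X I : Finset V} {d : V → V → Fin 3}

/-- The rooted tree `t` describes the leaves `S` seen from the leaf `r`. -/
def Real (I : Finset V) (d : V → V → Fin 3) (r : V) (S : Finset V) (t : LT V) : Prop :=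
  t.Bal ∧ t.leaves.Nodup ∧ (∀ x, x ∈ t.leaves ↔ x ∈ S) ∧ ∀ v ∈ int I d (insert r S),
    ∃ p ∈ t.splits, ∀ a ∈ p.1, ∀ b ∈ p.2, ∀ z ∈ insert r S, z ∉ p.1 → z ∉ p.2 → Rb d v a b z

theorem Real.card {r : V} {S : Finset V} {t : LT V} (h : Real I d r S t) :
    t.leaves.length = #S := by
  rw [← List.toFinset_card_of_nodup h.2.1]
  exact congrArg _ (Finset.ext fun x => by rw [List.mem_toFinset, h.2.2.1])

theorem Real.half {r v : V} {A B : Finset V} {t : LT V} (h : Real I d r A t) (rA : r ∉ A)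
    (hv : v ∈ int I d (insert r (A ∪ B))) {i : Fin 3} (hi : d v r = i) (hB' : ∀ x ∈ B, d v x = i) :
    ∃ p ∈ t.splits, ∀ a ∈ p.1, ∀ b ∈ p.2, ∀ z ∈ insert r (A ∪ B), z ∉ p.1 → z ∉ p.2 →
      Rb d v a b z := by
  obtain ⟨p, hp, k⟩ := h.2.2.2 v (mem_int.2 ⟨(mem_int.1 hv).1, fun j => by
    obtain ⟨y, hy, e⟩ := (mem_int.1 hv).2 j
    simp only [mem_insert, mem_union] at hy
    rcases hy with hy | hy | hy
    exacts [⟨y, by simp [hy], e⟩, ⟨y, by simp [hy], e⟩,
      ⟨r, by simp, hi.trans ((hB' y hy).symm.trans e)⟩]⟩)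
  refine ⟨p, hp, fun a ha b hb z hz z1 z2 => ?_⟩
  simp only [mem_insert, mem_union] at hz
  rcases hz with hz | hz | hz
  · exact k a ha b hb z (by simp [hz]) z1 z2
  · exact k a ha b hb z (by simp [hz]) z1 z2
  · have := k a ha b hb r (by simp) (fun q => rA ((h.2.2.1 r).1 ((t.splits_sub p hp).1 q)))
      fun q => rA ((h.2.2.1 r).1 ((t.splits_sub p hp).2 q))
    unfold Rb at this ⊢
    rwa [hB' z hz, ← hi]

theorem St.join (S : St X I d) {r u : V} {A B : Finset V} {s t : LT V} (hr : r ∈ X)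
    (hA : A ⊆ X) (hB : B ⊆ X) (hu : u ∈ I) (hs : Real I d r A s) (ht : Real I d r B t)
    {i j : Fin 3} (ij : i ≠ j) (ri : d u r ≠ i) (rj : d u r ≠ j) (cA : ∀ x ∈ A, d u x = i)
    (cB : ∀ x ∈ B, d u x = j) (le : #A ≤ #B) : Real I d r (A ∪ B) (.node s t) := by
  have mA := hs.2.2.1
  have mB := ht.2.2.1
  refine ⟨⟨by rwa [hs.card, ht.card], hs.1, ht.1⟩, List.nodup_append.2 ⟨hs.2.1, ht.2.1,
    fun a ha b hb e => ij ((cA a ((mA a).1 ha)).symm.trans (e ▸ cB b ((mB b).1 hb)))⟩,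
    fun x => by simp [LT.leaves, mA, mB], fun v hv => ?_⟩
  by_cases e : v = u
  · refine ⟨(s.leaves, t.leaves), by simp [LT.splits], fun a ha b hb z hz z1 z2 => ?_⟩
    obtain rfl : z = r := by simpa [mt (mA z).2 z1, mt (mB z).2 z2] using hz
    unfold Rb
    rw [e, cA a ((mA a).1 ha), cB b ((mB b).1 hb)]
    exact ⟨ij, ri.symm, rj.symm⟩
  obtain ⟨i', j', H⟩ := S.a2 v (mem_int.1 hv).1 u hu e
  by_cases e1 : j' = i
  · obtain ⟨p, hp, k⟩ := hs.half (fun q => ri (cA r q)) hv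
      ((H r hr).resolve_right (e1 ▸ ri))
      fun x hx => (H x (hB hx)).resolve_right (by rw [cB x hx, e1]; exact ij.symm)
    exact ⟨p, by simp [LT.splits, hp], k⟩
  by_cases e2 : j' = j
  · rw [union_comm] at hv ⊢
    obtain ⟨p, hp, k⟩ := ht.half (fun q => rj (cB r q)) hv
      ((H r hr).resolve_right (e2 ▸ rj))
      fun x hx => (H x (hA hx)).resolve_right (by rw [cA x hx, e2]; exact ij)
    exact ⟨p, by simp [LT.splits, hp], k⟩
  have all : ∀ x ∈ insert r (A ∪ B), x = r ∨ d v x = i' := fun x hx => by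
    simp only [mem_insert, mem_union] at hx
    rcases hx with hx | hx | hx
    exacts [Or.inl hx, Or.inr ((H x (hA hx)).resolve_right fun q => e1 (q ▸ cA x hx)),
      Or.inr ((H x (hB hx)).resolve_right fun q => e2 (q ▸ cB x hx))]
  obtain ⟨a, ha, b, hb, c, hc, k⟩ := rb_of_mem hv
  have := all a ha; have := all b hb; have := all c hc
  have := k.ne
  unfold Rb at k
  grind

theorem St.real (S : St X I d) {r : V} (hr : r ∈ X) (n : ℕ) : ∀ A : Finset V, #A ≤ n → A ⊆ X →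
    r ∉ A → A.Nonempty → ∃ t, Real I d r A t := by
  induction n with
  | zero => intro A h _ _ ne; have := ne.card_pos; omega
  | succ n ih =>
    intro A h hA rA ne
    by_cases h1 : #A = 1
    · obtain ⟨a, rfl⟩ := card_eq_one.1 h1
      refine ⟨.leaf a, trivial, by simp [LT.leaves], by simp [LT.leaves], fun v hv => ?_⟩
      have := card_of_mem hv
      have := card_le_two (a := r) (b := a)
      omega
    obtain ⟨u, hu, -, -, k1, a, ha, c, hc, k⟩ := S.new hA (by have := ne.card_pos; omega) hr rA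
    have e := filter_union_filter_not_eq (fun x => d u x = d u a) A
    have cd := card_filter_add_card_filter_not (s := A) (fun x => d u x = d u a)
    have n1 : ({x ∈ A | d u x = d u a} : Finset V).Nonempty := ⟨a, mem_filter.2 ⟨ha, rfl⟩⟩
    have n2 : ({x ∈ A | ¬ d u x = d u a} : Finset V).Nonempty := ⟨c, mem_filter.2 ⟨hc, k.1.symm⟩⟩
    have s1 := (filter_subset (fun x => d u x = d u a) A).trans hA
    have s2 := (filter_subset (fun x => ¬ d u x = d u a) A).trans hA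
    obtain ⟨s, hs⟩ := ih _ (by have := n2.card_pos; omega) s1 (fun q => rA (mem_filter.1 q).1) n1
    obtain ⟨t, ht⟩ := ih _ (by have := n1.card_pos; omega) s2 (fun q => rA (mem_filter.1 q).1) n2
    have c1 : ∀ x ∈ ({x ∈ A | d u x = d u a} : Finset V), d u x = d u a :=
      fun x hx => (mem_filter.1 hx).2
    have c2 : ∀ x ∈ ({x ∈ A | ¬ d u x = d u a} : Finset V), d u x = d u c := fun x hx => by
      have := (mem_filter.1 hx).2
      have := k1 x (mem_filter.1 hx).1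
      unfold Rb at k
      omega
    rcases le_total #{x ∈ A | d u x = d u a} #{x ∈ A | ¬ d u x = d u a} with le | le
    · exact ⟨_, e ▸ S.join hr s1 s2 hu hs ht k.1 k.2.1.symm k.2.2.symm c1 c2 le⟩
    · rw [union_comm] at e
      exact ⟨_, e ▸ S.join hr s2 s1 hu ht hs k.1.symm k.2.2.symm k.2.1.symm c2 c1 le⟩

/-- `x` and `y` lie in one row or in one column. -/
def Ad (ρ γ : V → ℕ) (x y : V) : Prop := (ρ x = ρ y ∧ ρ x ≠ 0) ∨ (γ x = γ y ∧ γ x ≠ 0)

/-- A cover of the vertices spanned by `W` that stays inside the rows and columns. -/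
def Inv (I : Finset V) (d : V → V → Fin 3) (W : Finset V) : Prop :=
  ∃ (T : Finset (Sym2 V)) (ρ γ : V → ℕ),
    (∀ e ∈ T, ∃ a ∈ W, ∃ b ∈ W, a ≠ b ∧ e = s(a, b) ∧ Ad ρ γ a b) ∧
    (∀ v ∈ int I d W, ∃ a ∈ W, ∃ b ∈ W, ∃ c ∈ W, Rb d v a b c ∧ s(a, b) ∈ T ∧ s(a, c) ∈ T ∧
      s(b, c) ∈ T) ∧ #T ≤ 2 * #W + 3 ∧
    (∀ x ∈ W, ∀ y ∈ W, ρ x ≠ 0 → γ x ≠ 0 → ρ x = ρ y → γ x = γ y → x = y) ∧
    ∃ p ∈ W, ∃ q ∈ W, p ≠ q ∧ ¬ Ad ρ γ p q

/-- The 27 pairs of the ten triples. -/
def prs : List (Fin 12 × Fin 12) :=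
  (trip.flatMap fun q => [(q.1, q.2.1), (q.1, q.2.2), (q.2.1, q.2.2)]).dedup

theorem St.base (S : St X I d) {W : Finset V} (hW : W ⊆ X) (h : #W = 12) : Inv I d W := by
  obtain ⟨r, hr⟩ : W.Nonempty := card_pos.1 (by omega)
  have ce := card_erase_add_one hr
  obtain ⟨t, ht⟩ := S.real (hW hr) _ (W.erase r) le_rfl ((erase_subset _ _).trans hW)
    (notMem_erase _ _) (card_pos.1 (by omega))
  obtain ⟨s, ⟨nd, ok⟩, e⟩ := exists_ok t ht.1 (by rw [ht.card]; omega)
  obtain ⟨g, rfl, out⟩ := s.zip t (fun _ => r) nd e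
  obtain ⟨-, n2, mem, sp⟩ := ht
  rw [insert_erase hr, LT.splits_map] at sp
  rw [LT.leaves_map] at n2 mem
  have gW : ∀ a, g a ∈ W := fun a => by
    by_cases q : a ∈ s.leaves
    exacts [mem_of_mem_erase ((mem _).1 (List.mem_map_of_mem q)), out a q ▸ hr]
  have sur : univ.image g = W := Subset.antisymm (image_subset_iff.2 fun a _ => gW a) fun x hx => by
    by_cases q : x = r
    · obtain ⟨a, ha⟩ : ∃ a, a ∉ s.leaves := by
        by_contra q
        push Not at q
        have h1 := card_le_card (s := univ) (t := s.leaves.toFinset) fun a _ =>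
          List.mem_toFinset.2 (q a)
        have h2 := List.toFinset_card_of_nodup n2
        rw [List.toFinset_card_of_nodup nd, card_fin] at h1
        rw [List.length_map, show (s.leaves.map g).toFinset = W.erase r from
          Finset.ext fun x => by rw [List.mem_toFinset, mem]] at h2
        omega
      exact mem_image.2 ⟨a, mem_univ _, q ▸ out a ha⟩
    · obtain ⟨a, -, e⟩ := List.mem_map.1 ((mem x).2 (mem_erase.2 ⟨q, hx⟩))
      exact mem_image.2 ⟨a, mem_univ _, e⟩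
  have inj : g.Injective := by
    have := card_image_iff.1 (show #(univ.image g) = univ.card by rw [sur, h, card_fin])
    exact fun a b e => this (by simp) (by simp) e
  have li := Function.leftInverse_invFun inj
  have ad : ∀ a b, Ad (fun x => (Function.invFun g x).1 / 4 + 1)
      (fun x => (Function.invFun g x).1 % 4 + 1) (g a) (g b) ↔
        a.1 / 4 = b.1 / 4 ∨ a.1 % 4 = b.1 % 4 := fun a b => by simp [Ad, li a, li b]
  refine ⟨(prs.map fun p => s(g p.1, g p.2)).toFinset, fun x => (Function.invFun g x).1 / 4 + 1,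
    fun x => (Function.invFun g x).1 % 4 + 1, fun e he => ?_, fun v hv => ?_, ?_, ?_,
    g 0, gW 0, g 5, gW 5, inj.ne (by decide), by rw [ad]; decide⟩
  · obtain ⟨p, hp, rfl⟩ := List.mem_map.1 (List.mem_toFinset.1 he)
    have : ∀ p ∈ prs, p.1 ≠ p.2 ∧ (p.1.1 / 4 = p.2.1 / 4 ∨ p.1.1 % 4 = p.2.1 % 4) := by
      decide +kernel
    exact ⟨_, gW _, _, gW _, inj.ne (this p hp).1, rfl, (ad _ _).2 (this p hp).2⟩
  · obtain ⟨_, hp0, k⟩ := sp v hv
    obtain ⟨p, hp, rfl⟩ := List.mem_map.1 hp0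
    obtain ⟨q, hq, k1, k2, k3⟩ := ok p hp
    have key : ∀ a b c, side p a = 0 → side p b = 1 → side p c = 2 → Rb d v (g a) (g b) (g c) :=
      fun a b c ha hb hc => by
        unfold side at ha hb hc
        refine k _ (List.mem_map_of_mem (by grind)) _ (List.mem_map_of_mem (by grind)) _ (gW c)
          ?_ ?_ <;> rw [List.mem_map_of_injective inj] <;> grind
    have lt : ∀ a, side p a = 0 ∨ side p a = 1 ∨ side p a = 2 := fun a => by
      unfold side
      split_ifs <;> simp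
    have pr : ∀ q ∈ trip, (q.1, q.2.1) ∈ prs ∧ (q.1, q.2.2) ∈ prs ∧ (q.2.1, q.2.2) ∈ prs := by
      decide +kernel
    have tm : ∀ a b, (a, b) ∈ prs → s(g a, g b) ∈ (prs.map fun p => s(g p.1, g p.2)).toFinset :=
      fun a b k => List.mem_toFinset.2 (List.mem_map.2 ⟨_, k, rfl⟩)
    refine ⟨_, gW q.1, _, gW q.2.1, _, gW q.2.2, ?_, tm _ _ (pr q hq).1, tm _ _ (pr q hq).2.1,
      tm _ _ (pr q hq).2.2⟩
    have := key q.1 q.2.1 q.2.2; have := key q.1 q.2.2 q.2.1; have := key q.2.1 q.1 q.2.2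
    have := key q.2.1 q.2.2 q.1; have := key q.2.2 q.1 q.2.1; have := key q.2.2 q.2.1 q.1
    have := lt q.1; have := lt q.2.1; have := lt q.2.2
    unfold Rb at *
    grind
  · refine (List.toFinset_card_le _).trans ?_
    rw [List.length_map, h]
    decide +kernel
  · intro x hx y hy _ _ e1 e2
    rw [← sur] at hx hy
    obtain ⟨a, -, rfl⟩ := mem_image.1 hx
    obtain ⟨b, -, rfl⟩ := mem_image.1 hy
    simp only [li a, li b] at e1 e2
    exact congrArg g (Fin.ext (by omega))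

theorem St.cross (S : St X I d) {W : Finset V} (hW : W ⊆ X) {T : Finset (Sym2 V)} {u : V}
    (hu : u ∈ I) (new : u ∉ int I d W) {a y c : V} (ha : a ∈ W) (hy : y ∈ W) (hc : c ∈ W)
    (ay : a ≠ y) (e : d u y = d u a) (ne : d u a ≠ d u c)
    (cov : ∀ v ∈ int I d W, ∃ a ∈ W, ∃ b ∈ W, ∃ c ∈ W, Rb d v a b c ∧ s(a, b) ∈ T ∧ s(a, c) ∈ T ∧
      s(b, c) ∈ T) : ∃ p ∈ W, ∃ q ∈ W, d u p ≠ d u q ∧ s(p, q) ∈ T := by
  obtain ⟨v, hv, -, -, k1, a', ha', c', hc', k⟩ := S.new
    ((filter_subset (fun x => d u x = d u a) W).trans hW)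
    (one_lt_card.2 ⟨a, mem_filter.2 ⟨ha, rfl⟩, y, mem_filter.2 ⟨hy, e⟩, ay⟩) (hW hc)
    fun q => ne (mem_filter.1 q).2.symm
  rw [mem_filter] at ha' hc'
  have vW := k.mem hv ha'.1 hc'.1 hc
  obtain ⟨p, hp, q, hq, s, hs, r, t1, t2, -⟩ := cov v vW
  by_contra no
  push Not at no
  have e1 : d u p = d u q := by_contra fun z => no p hp q hq z t1
  have e2 : d u p = d u s := by_contra fun z => no p hp s hs z t2
  unfold Rb at k r
  by_cases z : d u p = d u a
  · have := k1 p (mem_filter.2 ⟨hp, z⟩)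
    have := k1 q (mem_filter.2 ⟨hq, e1 ▸ z⟩)
    have := k1 s (mem_filter.2 ⟨hs, e2 ▸ z⟩)
    omega
  obtain ⟨i, j, H⟩ := S.a2 u hu v hv fun q => new (q ▸ vW)
  have : d u a = i := by
    have := H a' (hW ha'.1)
    have := H c' (hW hc'.1)
    omega
  exact r.1 (((H p (hW hp)).resolve_left (this ▸ z)).trans
    ((H q (hW hq)).resolve_left (this ▸ e1 ▸ z)).symm)

theorem St.grow (S : St X I d) {W : Finset V} (hW : W ⊆ X) (h3 : 3 ≤ #W) {x : V} (hx : x ∈ X)
    (xW : x ∉ W) (h : Inv I d W) : Inv I d (insert x W) := by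
  obtain ⟨T, ρ, γ, h1, h2, h4, h5, p0, hp0, q0, hq0, pq, far⟩ := h
  obtain ⟨u, hu, new, e, k1, a, ha, c, hc, k⟩ := S.new hW (by omega) hx xW
  obtain ⟨p, hp, q, hq, ne, hT⟩ : ∃ p ∈ W, ∃ q ∈ W, d u p ≠ d u q ∧ s(p, q) ∈ T := by
    obtain ⟨y, hy, hy'⟩ := exists_mem_notMem_of_card_lt_card (s := {a, c}) (t := W)
      (lt_of_le_of_lt card_le_two h3)
    simp only [mem_insert, mem_singleton, not_or] at hy'
    have := k1 y hy
    by_cases e : d u y = d u a
    · exact S.cross hW hu new ha hy hc (Ne.symm hy'.1) e k.1 h2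
    · exact S.cross hW hu new hc hy ha (Ne.symm hy'.2) (by unfold Rb at k; omega) k.1.symm h2
  have nx : ∀ y ∈ W, y ≠ x := fun y hy e => xW (e ▸ hy)
  obtain ⟨i, j, z, ap, aq⟩ : ∃ i j : ℕ, (i = 0 ∨ j = 0) ∧ ((ρ p = i ∧ i ≠ 0) ∨ (γ p = j ∧ j ≠ 0)) ∧
      ((ρ q = i ∧ i ≠ 0) ∨ (γ q = j ∧ j ≠ 0)) := by
    obtain ⟨a, -, b, -, -, e, ad⟩ := h1 _ hT
    rw [Sym2.eq_iff] at e
    rcases ad with ad | ad
    · exact ⟨ρ a, 0, Or.inr rfl, by grind, by grind⟩
    · exact ⟨0, γ a, Or.inl rfl, by grind, by grind⟩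
  have up : ∀ (f : V → ℕ) (i), ∀ y ∈ W, Function.update f x i y = f y :=
    fun f i y hy => Function.update_of_ne (nx y hy) _ _
  have keep : ∀ a ∈ W, ∀ b ∈ W, Ad (Function.update ρ x i) (Function.update γ x j) a b ↔
      Ad ρ γ a b := fun a ha b hb => by simp only [Ad, up _ _ a ha, up _ _ b hb]
  refine ⟨insert s(p, x) (insert s(q, x) T), Function.update ρ x i, Function.update γ x j,
    fun e he => ?_, fun v hv => ?_, ?_, fun a ha b hb => ?_, p0, by simp [hp0], q0, by simp [hq0],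
    pq, by rwa [keep p0 hp0 q0 hq0]⟩
  · simp only [mem_insert] at he
    rcases he with rfl | rfl | he
    · refine ⟨p, by simp [hp], x, by simp, nx p hp, rfl, ?_⟩
      simp only [Ad, up _ _ p hp, Function.update_self]
      grind
    · refine ⟨q, by simp [hq], x, by simp, nx q hq, rfl, ?_⟩
      simp only [Ad, up _ _ q hq, Function.update_self]
      grind
    · obtain ⟨a, ha, b, hb, ab, e, ad⟩ := h1 e he
      exact ⟨a, by simp [ha], b, by simp [hb], ab, e, (keep a ha b hb).2 ad⟩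
  · rcases mem_insert.1 (e ▸ hv) with rfl | hv
    · exact ⟨p, by simp [hp], q, by simp [hq], x, by simp, ⟨ne, k1 p hp, k1 q hq⟩, by simp [hT],
        by simp, by simp⟩
    · obtain ⟨a, ha, b, hb, c, hc, k, t1, t2, t3⟩ := h2 v hv
      exact ⟨a, by simp [ha], b, by simp [hb], c, by simp [hc], k, by simp [t1], by simp [t2],
        by simp [t3]⟩
  · have := card_insert_le s(p, x) (insert s(q, x) T)
    have := card_insert_le s(q, x) T
    rw [card_insert_of_notMem xW]
    omega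
  · rcases mem_insert.1 ha with rfl | ha' <;> rcases mem_insert.1 hb with rfl | hb'
    · simp
    · simp only [Function.update_self]
      omega
    · simp only [Function.update_self]
      omega
    · simp only [up _ _ a ha', up _ _ b hb']
      exact h5 a ha' b hb'

theorem St.inv (S : St X I d) (h : 12 ≤ #X) : Inv I d X := by
  obtain ⟨W, hW, cW⟩ := exists_subset_card_eq h
  have : ∀ D : Finset V, D ⊆ X → Inv I d (D ∪ W) := fun D => by
    induction D using Finset.induction_on with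
    | empty => exact fun _ => by simpa using S.base hW cW
    | insert x D hx ih =>
      intro hD
      have k := ih ((subset_insert _ _).trans hD)
      rw [insert_union]
      by_cases q : x ∈ D ∪ W
      · rwa [insert_eq_of_mem q]
      · exact S.grow (union_subset ((subset_insert _ _).trans hD) hW)
          (le_trans (by omega) (card_le_card subset_union_right)) (hD (by simp)) q k
  simpa [union_eq_left.2 hW] using this X Subset.rfl

theorem not_shellable [Fintype V] {G : SimpleGraph V} (h : IsBin G X) (h12 : 12 ≤ #X) :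
    ∃ T, Cover G X T ∧ ¬ Shellable G X T ∧ #T ≤ 2 * #X + 3 := by
  obtain ⟨d, S, sep, -, cd⟩ := h.st
  obtain ⟨T, ρ, γ, h1, h2, h4, h5, p, hp, q, hq, pq, far⟩ := S.inv h12
  have e : int Xᶜ d X = Xᶜ := eq_of_subset_of_card_le (filter_subset _ _) (by
    have := S.card Subset.rfl (by omega)
    omega)
  have tr : ∀ {a b x y}, s(x, y) = s(a, b) → Ad ρ γ a b → Ad ρ γ x y := fun e ad => by
    rw [Sym2.eq_iff] at e
    unfold Ad at ad ⊢
    grind
  have inT : ∀ x y, s(x, y) ∈ T → Ad ρ γ x y := fun x y k => by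
    obtain ⟨a, -, b, -, -, e, ad⟩ := h1 _ k
    exact tr e ad
  refine ⟨T, ⟨fun e he => ?_, fun v hv => ?_⟩, ?_, h4⟩
  · obtain ⟨a, ha, b, hb, ab, e, -⟩ := h1 e he
    exact ⟨a, ha, b, hb, ab, e⟩
  · obtain ⟨a, ha, b, hb, c, hc, k, t⟩ := h2 v (e.symm ▸ mem_compl.2 hv)
    exact ⟨a, ha, b, hb, c, hc, (sep v hv a ha b hb).2 k.1, (sep v hv a ha c hc).2 k.2.1,
      (sep v hv b hb c hc).2 k.2.2, t⟩
  rintro ⟨m, a, b, -, all, ok⟩
  have ad : ∀ i, Ad ρ γ (a i) (b i) := fun i => by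
    induction i using WellFoundedLT.induction with
    | ind i ih =>
      obtain ⟨x, hx, y, hy, xy, -, -, -, -, -, k⟩ := ok i
      have k' : ∀ x' y', s(x', y') ∈ [s(a i, x), s(a i, y), s(b i, x), s(b i, y), s(x, y)] →
          Ad ρ γ x' y' := fun x' y' m => (k _ m).elim (inT _ _) fun ⟨j, lt, e⟩ => tr e (ih j lt)
      have := k' (a i) x (by simp); have := k' (a i) y (by simp); have := k' (b i) x (by simp)
      have := k' (b i) y (by simp); have := k' x y (by simp); have := h5 x hx y hy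
      unfold Ad at *
      grind
  by_cases k : s(p, q) ∈ T
  · exact far (inT _ _ k)
  · obtain ⟨i, e⟩ := (all _).2 ⟨⟨p, hp, q, hq, pq, rfl⟩, k⟩
    exact far (tr e (ad i))

theorem threshold [Fintype V] {G : SimpleGraph V} (h : IsBin G X) (h3 : 3 ≤ #X) (k : ℕ) :
    (∃ T, Cover G X T ∧ ¬ Shellable G X T ∧ #T ≤ k) ↔ 12 ≤ #X ∧ 2 * #X + 3 ≤ k := by
  refine ⟨fun ⟨T, h1, h2, h4⟩ => ?_, fun ⟨h1, h2⟩ => ?_⟩
  · by_contra q
    exact h2 (shellable h h3 h1 (by omega))
  · obtain ⟨T, k1, k2, k3⟩ := not_shellable h h1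
    exact ⟨T, k1, k2, k3.trans h2⟩

end Pool.Agent.Lib.MP_66d22e_co
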